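import Pool.Agent.Lib.MP_58ca84_co.Poly

/-!
# Closure: all network values stay in the interval
-/

namespace Pool.Agent.MP_58ca84_co

/-- The crude bounds satisfied by every network. -/
structure T1P (t y q g d : ℝ) : Prop where
  pos : 0 < g + q * d
  lo : (1 - y) * (g + d) ≤ g + q * d
  hi : g + q * d ≤ (1 + t) * (g + d)

/-- The two upper bounds `w ≤ W` and `w̄ ≤ W`. -/
structure QP (W q g d : ℝ) : Prop where
  a : g ≤ W * (g + q * d)
  b : d ≤ W * (g + d)

/-- The standing hypotheses on the parameters. -/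
structure Par (t y q : ℝ) : Prop where
  t0 : 0 ≤ t
  ty : t ^ 2 < y
  y1 : y < 1
  hq : q = (1 + t) * (1 - y)
  q1 : q ≠ 1

theorem Par.q0 {t y q : ℝ} (h : Par t y q) : 0 < q := by
  rw [h.hq]
  exact mul_pos (by linarith [h.t0]) (by linarith [h.y1])

theorem Par.y0 {t y q : ℝ} (h : Par t y q) : 0 < y := lt_of_le_of_lt (sq_nonneg t) h.ty

theorem Par.t1 {t y q : ℝ} (h : Par t y q) : t < 1 := by
  have h1 := h.ty
  have h2 := h.y1
  have h3 := h.t0
  nlinarith

theorem T1P.posB {t y q g d : ℝ} (h : T1P t y q g d) (ht : 0 ≤ t) : 0 < g + d := by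
  have h1 := h.pos
  have h2 := h.hi
  by_contra h3
  push Not at h3
  have : (1 + t) * (g + d) ≤ 0 := mul_nonpos_of_nonneg_of_nonpos (by linarith) h3
  linarith

theorem T1P.dual {t y q g d : ℝ} (hp : Par t y q) (h : T1P t y q g d) :
    T1P t y q (q * d) g := by
  have hB := h.posB hp.t0
  have hq0 := hp.q0
  have h1 := h.lo
  have h2 := h.hi
  have ht := hp.t0
  have hy := hp.y1
  have hq := hp.hq
  refine ⟨?_, ?_, ?_⟩
  · have : q * d + q * g = q * (g + d) := by ring
    rw [this]; positivity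
  · have e1 : q * d + q * g = (1 - y) * ((1 + t) * (g + d)) := by rw [hq]; ring
    rw [e1]
    apply mul_le_mul_of_nonneg_left _ (by linarith)
    linarith
  · have e1 : q * d + q * g = (1 + t) * ((1 - y) * (g + d)) := by rw [hq]; ring
    rw [e1]
    apply mul_le_mul_of_nonneg_left _ (by linarith)
    linarith

theorem T1P.scale {t y q g d s : ℝ} (hs : 0 < s) (h : T1P t y q g d) :
    T1P t y q (s * g) (s * d) := by
  refine ⟨?_, ?_, ?_⟩
  · have : s * g + q * (s * d) = s * (g + q * d) := by ring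
    rw [this]; exact mul_pos hs h.pos
  · have := mul_le_mul_of_nonneg_left h.lo hs.le
    nlinarith
  · have := mul_le_mul_of_nonneg_left h.hi hs.le
    nlinarith

theorem T1P.unscale {t y q g d s : ℝ} (hs : 0 < s) (h : T1P t y q (s * g) (s * d)) :
    T1P t y q g d := by
  have h1 := h.scale (inv_pos.2 hs)
  have e1 : s⁻¹ * (s * g) = g := by field_simp
  have e2 : s⁻¹ * (s * d) = d := by field_simp
  rwa [e1, e2] at h1

theorem T1P.undual {t y q g d : ℝ} (hp : Par t y q) (h : T1P t y q (q * d) g) :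
    T1P t y q g d := by
  have h1 := h.dual hp
  exact h1.unscale hp.q0

theorem QP.dual {W q g d : ℝ} (hq : 0 < q) (h : QP W q g d) : QP W q (q * d) g := by
  refine ⟨?_, ?_⟩
  · have := mul_le_mul_of_nonneg_left h.b hq.le
    nlinarith
  · have := h.a
    linarith

theorem QP.scale {W q g d s : ℝ} (hs : 0 < s) (h : QP W q g d) : QP W q (s * g) (s * d) := by
  refine ⟨?_, ?_⟩
  · have := mul_le_mul_of_nonneg_left h.a hs.le
    nlinarith
  · have := mul_le_mul_of_nonneg_left h.b hs.le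
    nlinarith

theorem QP.unscale {W q g d s : ℝ} (hs : 0 < s) (h : QP W q (s * g) (s * d)) : QP W q g d := by
  have h1 := h.scale (inv_pos.2 hs)
  have e1 : s⁻¹ * (s * g) = g := by field_simp
  have e2 : s⁻¹ * (s * d) = d := by field_simp
  rwa [e1, e2] at h1

theorem QP.undual {W q g d : ℝ} (hq : 0 < q) (h : QP W q (q * d) g) : QP W q g d :=
  (h.dual hq).unscale hq

theorem QP.mono {W W' q g d : ℝ} (hA : 0 < g + q * d) (hB : 0 < g + d) (h : QP W q g d)
    (hW : W ≤ W') : QP W' q g d :=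
  ⟨h.a.trans (mul_le_mul_of_nonneg_right hW hA.le), h.b.trans (mul_le_mul_of_nonneg_right hW hB.le)⟩

theorem prod_bounds {t y a b : ℝ} (ht0 : 0 ≤ t) (hty : t ^ 2 ≤ y) (hy : y ≤ 1) (_ht1 : t ≤ 1)
    (ha1 : -t ≤ a) (ha2 : a ≤ y) (hb1 : -t ≤ b) (hb2 : b ≤ y) : -t ≤ a * b ∧ a * b ≤ y := by
  have hy0 : 0 ≤ y := (sq_nonneg t).trans hty
  rcases le_total 0 a with ha | ha <;> rcases le_total 0 b with hb | hb
  · constructor
    · nlinarith [mul_nonneg ha hb]
    · nlinarith [mul_le_mul ha2 hb2 hb hy0]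
  · constructor
    · nlinarith
    · nlinarith [mul_nonneg ha (neg_nonneg.2 hb)]
  · constructor
    · nlinarith
    · nlinarith [mul_nonneg hb (neg_nonneg.2 ha)]
  · constructor
    · nlinarith [mul_nonneg (neg_nonneg.2 ha) (neg_nonneg.2 hb)]
    · nlinarith [mul_nonneg (neg_nonneg.2 ha) (neg_nonneg.2 hb)]

/-- Reformulation of the crude bounds in terms of `(1 - q) g`. -/
theorem T1P.y_bounds {t y q g d : ℝ} (hp : Par t y q) (h : T1P t y q g d) :
    -t * (g + q * d) ≤ (1 - q) * g ∧ (1 - q) * g ≤ y * (g + q * d) := by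
  have h1 := h.lo
  have h2 := h.hi
  have ht := hp.t0
  have hy := hp.y1
  have e : (1 - q) * g = (g + q * d) - q * (g + d) := by ring
  constructor
  · have h3 : q * (g + d) ≤ (1 + t) * (g + q * d) := by
      rw [hp.hq]
      rw [hp.hq] at h1
      have := mul_le_mul_of_nonneg_left h1 (by linarith : (0 : ℝ) ≤ 1 + t)
      linarith
    rw [e]; linarith
  · have h3 : (1 - y) * (g + q * d) ≤ q * (g + d) := by
      rw [hp.hq]
      rw [hp.hq] at h2
      have := mul_le_mul_of_nonneg_left h2 (by linarith : (0 : ℝ) ≤ 1 - y)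
      linarith
    rw [e]; linarith

theorem T1P.of_y_bounds {t y q g d : ℝ} (hp : Par t y q) (h0 : 0 < g + q * d)
    (h1 : -t * (g + q * d) ≤ (1 - q) * g) (h2 : (1 - q) * g ≤ y * (g + q * d)) :
    T1P t y q g d := by
  have ht := hp.t0
  have hy := hp.y1
  have e : (1 - q) * g = (g + q * d) - q * (g + d) := by ring
  rw [e] at h1 h2
  refine ⟨h0, ?_, ?_⟩
  · have h3 : (1 + t) * ((1 - y) * (g + d)) ≤ (1 + t) * (g + q * d) := by
      have : (1 + t) * ((1 - y) * (g + d)) = q * (g + d) := by rw [hp.hq]; ring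
      rw [this]; linarith
    exact le_of_mul_le_mul_left h3 (by linarith)
  · have h3 : (1 - y) * (g + q * d) ≤ (1 - y) * ((1 + t) * (g + d)) := by
      have : (1 - y) * ((1 + t) * (g + d)) = q * (g + d) := by rw [hp.hq]; ring
      rw [this]; linarith
    exact le_of_mul_le_mul_left h3 (by linarith)

theorem T1P.par {t y q g1 d1 g2 d2 g d : ℝ} (hp : Par t y q) (h1 : T1P t y q g1 d1)
    (h2 : T1P t y q g2 d2) (hg : g = (1 - q) * (g1 * g2))
    (hA : g + q * d = (g1 + q * d1) * (g2 + q * d2)) : T1P t y q g d := by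
  obtain ⟨a1, a2⟩ := h1.y_bounds hp
  obtain ⟨b1, b2⟩ := h2.y_bounds hp
  have p1 := h1.pos
  have p2 := h2.pos
  set A1 := g1 + q * d1
  set A2 := g2 + q * d2
  have c1 : -t ≤ (1 - q) * g1 / A1 := by rw [le_div_iff₀ p1]; exact a1
  have c2 : (1 - q) * g1 / A1 ≤ y := by rw [div_le_iff₀ p1]; exact a2
  have c3 : -t ≤ (1 - q) * g2 / A2 := by rw [le_div_iff₀ p2]; exact b1
  have c4 : (1 - q) * g2 / A2 ≤ y := by rw [div_le_iff₀ p2]; exact b2
  obtain ⟨k1, k2⟩ := prod_bounds hp.t0 hp.ty.le hp.y1.le hp.t1.le c1 c2 c3 c4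
  have hA0 : 0 < A1 * A2 := mul_pos p1 p2
  have e : (1 - q) * g1 / A1 * ((1 - q) * g2 / A2) = (1 - q) * g / (A1 * A2) := by
    rw [hg]; field_simp
  rw [e] at k1 k2
  rw [le_div_iff₀ hA0] at k1
  rw [div_le_iff₀ hA0] at k2
  apply T1P.of_y_bounds hp
  · rw [hA]; exact hA0
  · rw [hA]; exact k1
  · rw [hA]; exact k2

theorem T1P.ser {t y q g1 d1 g2 d2 g d : ℝ} (hp : Par t y q) (h1 : T1P t y q g1 d1)
    (h2 : T1P t y q g2 d2) (hd : d = (1 - q) * (d1 * d2))
    (hB : g + d = (g1 + d1) * (g2 + d2)) : T1P t y q g d := by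
  apply T1P.undual hp
  apply T1P.unscale hp.q0
  apply T1P.par hp (h1.dual hp) (h2.dual hp)
  · rw [hd]; ring
  · have : q * (q * d) + q * (q * g) = q * q * (g + d) := by ring
    rw [this, hB]; ring

theorem T1P.mix {t y q gX dX g1 d1 g2 d2 g d : ℝ} (hp : Par t y q) (hX : T1P t y q gX dX)
    (h1 : T1P t y q g1 d1) (h2 : T1P t y q g2 d2)
    (hg : g = (gX + q * dX) * g1 + (gX + dX) * g2)
    (hd : d = (gX + q * dX) * d1 + (gX + dX) * d2) : T1P t y q g d := by
  have pA := hX.pos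
  have pB := hX.posB hp.t0
  set A := gX + q * dX
  set B := gX + dX
  have e1 : g + q * d = A * (g1 + q * d1) + B * (g2 + q * d2) := by rw [hg, hd]; ring
  have e2 : g + d = A * (g1 + d1) + B * (g2 + d2) := by rw [hg, hd]; ring
  refine ⟨?_, ?_, ?_⟩
  · rw [e1]; exact add_pos (mul_pos pA h1.pos) (mul_pos pB h2.pos)
  · rw [e1, e2]
    have m1 := mul_le_mul_of_nonneg_left h1.lo pA.le
    have m2 := mul_le_mul_of_nonneg_left h2.lo pB.le
    linarith
  · rw [e1, e2]
    have m1 := mul_le_mul_of_nonneg_left h1.hi pA.le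
    have m2 := mul_le_mul_of_nonneg_left h2.hi pB.le
    linarith

/-- Closure: every network value satisfies the crude bounds. -/
theorem NetVal.t1 {t y q : ℝ} (hp : Par t y q) {n : ℕ} {g d : ℝ} (h : NetVal t y n g d) :
    T1P t y q g d := by
  have hq1 := hp.q1
  have hq := hp.hq
  have hq0 := hp.q0
  have hy := hp.y1
  have ht := hp.t0
  induction h with
  | edge v h1 h2 =>
    rw [← hq]
    have h1q : (1 - q) ≠ 0 := fun h => hq1 (by linarith)
    have e1 : (1 + v) / (1 - q) + q * (-(1 + v / q) / (1 - q)) = 1 := by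
      field_simp; ring
    have e2 : (1 + v) / (1 - q) + -(1 + v / q) / (1 - q) = -v / q := by
      field_simp; ring
    refine ⟨?_, ?_, ?_⟩
    · rw [e1]; exact one_pos
    · rw [e1, e2, mul_div_assoc', div_le_one hq0, hq]
      nlinarith
    · rw [e1, e2, mul_div_assoc', le_div_iff₀ hq0, one_mul, hq]
      nlinarith
  | par n m g1 d1 g2 d2 g d _ _ hg hA ih1 ih2 =>
    rw [← hq] at hg hA
    exact T1P.par hp ih1 ih2 hg hA
  | ser n m g1 d1 g2 d2 g d _ _ hd hB ih1 ih2 =>
    rw [← hq] at hd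
    exact T1P.ser hp ih1 ih2 hd hB
  | mix n m gX dX g1 d1 g2 d2 g d _ _ _ _ _ hg hd ihX ih1 ih2 _ _ =>
    rw [← hq] at hg hd
    exact T1P.mix hp ihX ih1 ih2 hg hd

end Pool.Agent.MP_58ca84_co
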