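import Mathlib

/-!
# Definitions used in the statement: multigraphs, their multivariate Tutte polynomial,
2-connectedness and the middle root

A finite multigraph (loops and parallel edges allowed) with vertex type `V` and edge type `E` is
given by the map `ends : E → Sym2 V` sending each edge to its unordered pair of end vertices.
-/

namespace Pool.Agent.MP_58ca84_co

variable {V E : Type*}

/-- The simple graph on `V` in which two distinct vertices are adjacent when some edge of the
multigraph lying in `A` joins them. It has the same connected components as the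
multigraph `(V, A)`. -/
def spanG (ends : E → Sym2 V) (A : Set E) : SimpleGraph V :=
  SimpleGraph.fromEdgeSet (ends '' A)

/-- `k(A)`: the number of connected components of the multigraph `(V, A)`. -/
noncomputable def comps (ends : E → Sym2 V) (A : Set E) : ℕ :=
  Nat.card (spanG ends A).ConnectedComponent

/-- The multivariate Tutte polynomial
`Z(G; q, v) = ∑_{A ⊆ E} q ^ k(A) ∏_{e ∈ A} v e` of a multigraph. -/
noncomputable def ZG [Fintype E] (ends : E → Sym2 V) (q : ℝ) (v : E → ℝ) : ℝ :=
  ∑ A : Finset E, q ^ comps ends (A : Set E) * ∏ e ∈ A, v e

/-- A 2-connected multigraph: it has at least two vertices and no loops, it is connected, and it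
stays connected when any one vertex is deleted. Parallel edges are allowed. -/
structure TwoConn [Fintype V] (ends : E → Sym2 V) : Prop where
  two : 2 ≤ Fintype.card V
  loopless : ∀ e, ¬ (ends e).IsDiag
  conn : (spanG ends Set.univ).Connected
  cut : ∀ x : V, ((spanG ends Set.univ).induce {x}ᶜ).Connected

/-- `x` is the middle one of three distinct real roots of `v ^ 3 - 2 q v - q ^ 2 = 0`. -/
def IsMiddleRoot (q x : ℝ) : Prop :=
  x ^ 3 - 2 * q * x - q ^ 2 = 0 ∧
    ∃ a b : ℝ, a < x ∧ x < b ∧ a ^ 3 - 2 * q * a - q ^ 2 = 0 ∧ b ^ 3 - 2 * q * b - q ^ 2 = 0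

end Pool.Agent.MP_58ca84_co
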