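import Pool.Agent.Lib.MP_58ca84_co.Graph

/-!
# Assembling the intervals
-/

namespace Pool.Agent.MP_58ca84_co

open Set Filter Topology

theorem exists_tdia {q : ℝ} (h0 : 0 < q) (h1 : q < 32 / 27) :
    ∃ s : ℝ, 1 / 3 < s ∧ s < 1 ∧ q = (1 + s) * (1 - s ^ 2) := by
  have hc : ContinuousOn (fun s : ℝ => (1 + s) * (1 - s ^ 2)) (Icc (1 / 3) 1) := by fun_prop
  have h := intermediate_value_Icc' (by norm_num : (1 / 3 : ℝ) ≤ 1) hc
  have hm : q ∈ Icc ((1 + (1 : ℝ)) * (1 - 1 ^ 2)) ((1 + (1 / 3 : ℝ)) * (1 - (1 / 3) ^ 2)) := by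
    constructor
    · norm_num; exact h0.le
    · norm_num; exact h1.le
  obtain ⟨s, ⟨hs1, hs2⟩, hs⟩ := h hm
  simp only at hs
  refine ⟨s, ?_, ?_, hs.symm⟩
  · rcases eq_or_lt_of_le hs1 with h2 | h2
    · rw [← h2] at hs; norm_num at hs; linarith
    · exact h2
  · rcases eq_or_lt_of_le hs2 with h2 | h2
    · rw [h2] at hs; norm_num at hs; linarith
    · exact h2

theorem middle_root {q s : ℝ} (hs1 : 1 / 3 < s) (hs2 : s < 1) (hq : q = (1 + s) * (1 - s ^ 2)) :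
    IsMiddleRoot q (s ^ 2 - 1) ∧ ∀ x, IsMiddleRoot q x → x = s ^ 2 - 1 := by
  obtain ⟨D, hD⟩ : ∃ D, D = (1 + s) ^ 2 * (1 - s) * (5 + 3 * s) := ⟨_, rfl⟩
  have hD0 : 0 < D := by
    rw [hD]
    apply mul_pos (mul_pos (by positivity) (by linarith)) (by linarith)
  obtain ⟨R, hR⟩ : ∃ R, R = Real.sqrt D := ⟨_, rfl⟩
  have hR0 : 0 < R := by rw [hR]; exact Real.sqrt_pos.2 hD0
  have hRR : R ^ 2 = (1 + s) ^ 2 * (1 - s) * (5 + 3 * s) := by
    rw [hR, Real.sq_sqrt hD0.le, hD]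
  obtain ⟨a, ha⟩ : ∃ a, a = (-(s ^ 2 - 1) - R) / 2 := ⟨_, rfl⟩
  obtain ⟨b, hb⟩ : ∃ b, b = (-(s ^ 2 - 1) + R) / 2 := ⟨_, rfl⟩
  have hfac : ∀ x : ℝ, x ^ 3 - 2 * q * x - q ^ 2 = (x - a) * (x - (s ^ 2 - 1)) * (x - b) := by
    intro x
    have e1 : (x - a) * (x - b) = x ^ 2 - (a + b) * x + a * b := by ring
    have e2 : a + b = -(s ^ 2 - 1) := by rw [ha, hb]; ring
    have e3 : a * b = ((s ^ 2 - 1) ^ 2 - R ^ 2) / 4 := by rw [ha, hb]; ring
    have e4 : (x - a) * (x - (s ^ 2 - 1)) * (x - b) =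
        (x - (s ^ 2 - 1)) * (x ^ 2 - (a + b) * x + a * b) := by rw [← e1]; ring
    rw [e4, e2, e3, hRR, hq]; ring
  have h1 : a < s ^ 2 - 1 := by
    rw [ha]
    have : 3 * (1 - s ^ 2) < R := by
      apply lt_of_pow_lt_pow_left₀ 2 hR0.le
      rw [hRR]
      have e : (1 + s) ^ 2 * (1 - s) * (5 + 3 * s) - (3 * (1 - s ^ 2)) ^ 2 =
        (1 + s) ^ 2 * (1 - s) * (12 * s - 4) := by ring
      have : 0 < (1 + s) ^ 2 * (1 - s) * (12 * s - 4) :=
        mul_pos (mul_pos (by positivity) (by linarith)) (by linarith)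
      linarith
    linarith
  have hs0 : s ^ 2 - 1 < 0 := by nlinarith
  have h2 : s ^ 2 - 1 < b := by rw [hb]; linarith
  have hra : a ^ 3 - 2 * q * a - q ^ 2 = 0 := by rw [hfac]; ring
  have hrb : b ^ 3 - 2 * q * b - q ^ 2 = 0 := by rw [hfac]; ring
  have hroot : ∀ x : ℝ, x ^ 3 - 2 * q * x - q ^ 2 = 0 → x = a ∨ x = s ^ 2 - 1 ∨ x = b := by
    intro x hx
    rw [hfac] at hx
    rcases mul_eq_zero.1 hx with h3 | h3
    · rcases mul_eq_zero.1 h3 with h4 | h4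
      · exact Or.inl (by linarith)
      · exact Or.inr (Or.inl (by linarith))
    · exact Or.inr (Or.inr (by linarith))
  refine ⟨⟨by rw [hfac]; ring, a, b, h1, h2, hra, hrb⟩, ?_⟩
  rintro x ⟨hx, a', b', ha', hb', hra', hrb'⟩
  rcases hroot x hx with h3 | h3 | h3
  · rcases hroot a' hra' with h4 | h4 | h4 <;> linarith
  · exact h3
  · rcases hroot b' hrb' with h4 | h4 | h4 <;> linarith

/-- The starting parameter. -/
theorem exists_t0 {q s : ℝ} (h0 : 0 < q) (hq1 : q ≠ 1) (hq2 : q < 32 / 27) (hs1 : 1 / 3 < s) :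
    ∃ t0 : ℝ, 0 ≤ t0 ∧ t0 < s ∧ q < (1 + t0) * (1 - t0 ^ 2) ∧
      ∃ V, Crude t0 (1 - q / (1 + t0)) q V ∧ V < 1 / (1 - q / (1 + t0)) := by
  rcases lt_or_gt_of_ne hq1 with hq | hq
  · refine ⟨0, le_refl _, by linarith, by linarith, 1, ⟨?_, ?_⟩, ?_⟩
    · intro _; ring
    · intro h; linarith
    · have e : 1 - q / (1 + 0) = 1 - q := by ring
      rw [e, lt_div_iff₀ (by linarith)]
      linarith
  · obtain ⟨d, hd⟩ : ∃ d, d = q - 1 := ⟨_, rfl⟩
    have hd0 : 0 < d := by linarith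
    have hd1 : d < 5 / 27 := by linarith
    have hqd : q = 1 + d := by linarith
    refine ⟨9 / 5 * d, by linarith, by linarith, ?_, 9 / 5, ⟨?_, ?_⟩, ?_⟩
    · rw [hqd]
      have e : (1 + 9 / 5 * d) * (1 - (9 / 5 * d) ^ 2) - (1 + d) =
          d * (4 / 5 - 81 / 25 * d - 729 / 125 * d ^ 2) := by ring
      have h3 : 0 < 4 / 5 - 81 / 25 * d - 729 / 125 * d ^ 2 := by nlinarith
      have := mul_pos hd0 h3
      linarith
    · intro h; linarith
    · intro _; rw [← hd]; ring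
    · have hpos : 0 < 1 + 9 / 5 * d := by linarith
      have e : 1 - q / (1 + 9 / 5 * d) = (4 / 5 * d) / (1 + 9 / 5 * d) := by
        rw [hqd]; field_simp; ring
      rw [e, one_div_div, lt_div_iff₀ (by linarith)]
      nlinarith

theorem par_of_lt {q t : ℝ} (h0 : 0 < q) (hq1 : q ≠ 1) (ht : 0 ≤ t)
    (h : q < (1 + t) * (1 - t ^ 2)) : Par t (1 - q / (1 + t)) q := by
  have h1 : 0 < 1 + t := by linarith
  refine ⟨ht, ?_, ?_, ?_, hq1⟩
  · have : q / (1 + t) < 1 - t ^ 2 := by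
      rw [div_lt_iff₀ h1]; linarith
    linarith
  · have : 0 < q / (1 + t) := by positivity
    linarith
  · field_simp; ring

theorem exists_crude {t y q : ℝ} (hp : Par t y q) : ∃ V, Crude t y q V := by
  rcases hp.lt_or_gt with hq | hq
  · refine ⟨y / (1 - q), ⟨?_, ?_⟩⟩
    · intro _
      have : 1 - q ≠ 0 := by linarith
      field_simp
    · intro h; linarith
  · refine ⟨t / (q - 1), ⟨?_, ?_⟩⟩
    · intro h; linarith
    · intro _
      have : q - 1 ≠ 0 := by linarith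
      field_simp

/-- Threshold statement. -/
def Thr (q t : ℝ) (k : ℕ) : Prop :=
  ∀ n g d, k ≤ n → NetVal t (1 - q / (1 + t)) n g d → ∀ v, -(1 + t) ≤ v →
    v ≤ -(1 - (1 - q / (1 + t))) → 0 < d - v / q * g

theorem exists_thr {q t : ℝ} (hp : Par t (1 - q / (1 + t)) q) : ∃ k, 1 ≤ k ∧ Thr q t k := by
  obtain ⟨V, hV⟩ := exists_crude hp
  obtain ⟨W, hW1, hW2, k, hk, hQ⟩ := exists_bound hp hV
  refine ⟨k, hk, ?_⟩
  intro n g d hn hN v hv1 hv2
  exact final_pos hp hW1 hW2 (hN.t1 hp) (hQ n g d hn hN) hv1 hv2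

theorem thr_one {q t V : ℝ} (hp : Par t (1 - q / (1 + t)) q)
    (hV : Crude t (1 - q / (1 + t)) q V) (hV2 : V < 1 / (1 - q / (1 + t))) : Thr q t 1 := by
  intro n g d _ hN v hv1 hv2
  exact final_pos hp (hV.one_le hp) hV2 (hN.t1 hp) (hV.qp hp (hN.t1 hp)) hv1 hv2

theorem concave_lt {q s t0 t : ℝ} (ht0 : 0 ≤ t0) (hq : q = (1 + s) * (1 - s ^ 2))
    (h0 : q < (1 + t0) * (1 - t0 ^ 2)) (h1 : t0 ≤ t) (h2 : t < s) :
    q < (1 + t) * (1 - t ^ 2) := by
  have hs0 : 0 < s - t0 := by linarith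
  have e : (s - t0) * ((1 + t) * (1 - t ^ 2) - q) =
      (s - t) * ((1 + t0) * (1 - t0 ^ 2) - q) + (t - t0) * (s - t) * (s - t0) * (1 + t + t0 + s) := by
    rw [hq]; ring
  have k1 : 0 < (s - t) * ((1 + t0) * (1 - t0 ^ 2) - q) := mul_pos (by linarith) (by linarith)
  have k2 : 0 ≤ (t - t0) * (s - t) * (s - t0) * (1 + t + t0 + s) :=
    mul_nonneg (mul_nonneg (mul_nonneg (by linarith) (by linarith)) hs0.le) (by linarith)
  have k3 : 0 < (s - t0) * ((1 + t) * (1 - t ^ 2) - q) := by rw [e]; linarith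
  have := pos_of_mul k3 hs0.le
  linarith

/-- The main theorem. -/
theorem main (q : ℝ) (hq0 : 0 < q) (hq1 : q ≠ 1) (hq2 : q < 32 / 27) :
    ∃ vp : ℝ, IsMiddleRoot q vp ∧ (∀ x, IsMiddleRoot q x → x = vp) ∧
      ∃ lo hi : ℕ → ℝ,
        (∀ m, lo m < hi m) ∧
        (∀ m, ∀ v ∈ Icc (lo m) (hi m), q / v ∈ Icc (lo m) (hi m)) ∧
        (∀ m, Icc (lo m) (hi m) ⊆ Icc (lo (m + 1)) (hi (m + 1))) ∧
        (∀ m, Icc (lo m) (hi m) ⊆ Icc (q / vp) vp) ∧
        Tendsto lo atTop (𝓝 (q / vp)) ∧ Tendsto hi atTop (𝓝 vp) ∧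
        ∀ m : ℕ, 2 ≤ m → ∀ (V E : Type) [Fintype V] [Fintype E] (ends : E → Sym2 V),
          TwoConn ends → m ≤ Fintype.card E → ∀ v : E → ℝ,
            (∀ e, v e ∈ Icc (lo m) (hi m)) →
              0 < (-1) ^ (Fintype.card V + if q < 1 then 1 else 0) * ZG ends q v := by
  classical
  obtain ⟨s, hs1, hs2, hqs⟩ := exists_tdia hq0 hq2
  obtain ⟨hmr, huniq⟩ := middle_root hs1 hs2 hqs
  refine ⟨s ^ 2 - 1, hmr, huniq, ?_⟩
  obtain ⟨t0, ht0, ht0s, hqt0, V0, hV0, hV0'⟩ := exists_t0 hq0 hq1 hq2 hs1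
  -- the parameter sequence
  obtain ⟨τ, hτ⟩ : ∃ τ : ℕ → ℝ, τ = fun j : ℕ => s - (s - t0) / ((j : ℝ) + 1) := ⟨_, rfl⟩
  have hτ0 : τ 0 = t0 := by rw [hτ]; simp
  have hτlo : ∀ j, t0 ≤ τ j := by
    intro j
    rw [hτ]
    have h1 : (s - t0) / ((j : ℝ) + 1) ≤ s - t0 := by
      apply div_le_self (by linarith)
      have : (0 : ℝ) ≤ j := Nat.cast_nonneg j
      linarith
    simp only
    linarith
  have hτhi : ∀ j, τ j < s := by
    intro j
    rw [hτ]
    have : 0 < (s - t0) / ((j : ℝ) + 1) := div_pos (by linarith) (by positivity)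
    simp only
    linarith
  have hτmono : ∀ i j, i ≤ j → τ i ≤ τ j := by
    intro i j hij
    rw [hτ]
    have h1 : ((i : ℝ) + 1) ≤ (j : ℝ) + 1 := by
      have : (i : ℝ) ≤ j := Nat.cast_le.2 hij
      linarith
    have : (s - t0) / ((j : ℝ) + 1) ≤ (s - t0) / ((i : ℝ) + 1) :=
      div_le_div_of_nonneg_left (by linarith) (by positivity) h1
    simp only
    linarith
  have hτlim : Tendsto τ atTop (𝓝 s) := by
    rw [hτ]
    have h1 : Tendsto (fun j : ℕ => (s - t0) / ((j : ℝ) + 1)) atTop (𝓝 0) := by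
      have := (tendsto_one_div_add_atTop_nhds_zero_nat (𝕜 := ℝ)).const_mul (s - t0)
      simp only [mul_zero] at this
      refine this.congr ?_
      intro j; ring
    have h2 := (tendsto_const_nhds (x := s)).sub h1
    simp only [sub_zero] at h2
    exact h2
  have hpar : ∀ j, Par (τ j) (1 - q / (1 + τ j)) q := by
    intro j
    exact par_of_lt hq0 hq1 (ht0.trans (hτlo j)) (concave_lt ht0 hqs hqt0 (hτlo j) (hτhi j))
  -- thresholds
  have hthr : ∀ j, ∃ k, 1 ≤ k ∧ Thr q (τ j) k ∧ (j = 0 → k = 1) := by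
    intro j
    by_cases hj : j = 0
    · refine ⟨1, le_refl _, ?_, fun _ => rfl⟩
      have h0 := hpar 0
      rw [hj, hτ0]
      rw [hτ0] at h0
      exact thr_one h0 hV0 hV0'
    · obtain ⟨k, hk, hT⟩ := exists_thr (hpar j)
      exact ⟨k, hk, hT, fun h => absurd h hj⟩
  choose K hK1 hKT hK0 using hthr
  obtain ⟨J, hJ⟩ : ∃ J : ℕ → ℕ, J = fun m => Nat.findGreatest (fun j => K j + 1 ≤ m) m :=
    ⟨_, rfl⟩
  have hJspec : ∀ m, 2 ≤ m → K (J m) + 1 ≤ m := by
    intro m hm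
    rw [hJ]
    have h0 : K 0 + 1 ≤ m := by rw [hK0 0 rfl]; exact hm
    exact Nat.findGreatest_spec (P := fun j => K j + 1 ≤ m) (Nat.zero_le m) h0
  have hJmono : ∀ m, J m ≤ J (m + 1) := by
    intro m
    rw [hJ]
    apply Nat.findGreatest_mono
    · intro j hj
      exact le_trans hj (Nat.le_succ m)
    · exact Nat.le_succ m
  have hJlim : Tendsto J atTop atTop := by
    rw [tendsto_atTop]
    intro b
    filter_upwards [eventually_ge_atTop (max b (K b + 1))] with m hm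
    rw [hJ]
    exact Nat.le_findGreatest (le_trans (le_max_left _ _) hm) (le_trans (le_max_right _ _) hm)
  have hlim : Tendsto (fun m => τ (J m)) atTop (𝓝 s) := hτlim.comp hJlim
  have hpos : ∀ j, 0 < 1 + τ j := by
    intro j
    have := hτlo j
    linarith
  have hs0 : (0 : ℝ) < 1 + s := by linarith
  have hs21 : s ^ 2 - 1 ≠ 0 := by nlinarith
  have evp : -q / (1 + s) = s ^ 2 - 1 := by
    rw [hqs]; field_simp; ring
  have evm : q / (s ^ 2 - 1) = -(1 + s) := by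
    rw [div_eq_iff hs21, hqs]; ring
  refine ⟨fun m => -(1 + τ (J m)), fun m => -q / (1 + τ (J m)), ?_, ?_, ?_, ?_, ?_, ?_, ?_⟩
  · intro m
    simp only
    have hp := hpar (J m)
    have h1 := hpos (J m)
    rw [lt_div_iff₀ h1]
    have h2 := concave_lt ht0 hqs hqt0 (hτlo (J m)) (hτhi (J m))
    have h3 : 0 ≤ τ (J m) := ht0.trans (hτlo (J m))
    nlinarith [mul_nonneg h1.le (sq_nonneg (τ (J m)))]
  · rintro m v ⟨h1, h2⟩
    simp only at h1 h2 ⊢
    have h3 := hpos (J m)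
    have hv : v < 0 := by
      have : -q / (1 + τ (J m)) < 0 := div_neg_of_neg_of_pos (by linarith) h3
      linarith
    rw [le_div_iff₀ h3] at h2
    constructor
    · rw [le_div_iff_of_neg hv]; linarith
    · rw [div_le_iff_of_neg hv, div_mul_eq_mul_div, div_le_iff₀ h3]
      nlinarith
  · intro m
    simp only
    have h1 := hτmono _ _ (hJmono m)
    have h3 := hpos (J m)
    apply Icc_subset_Icc
    · linarith
    · rw [neg_div, neg_div, neg_le_neg_iff]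
      exact div_le_div_of_nonneg_left hq0.le h3 (by linarith)
  · intro m
    simp only
    have h1 := hτhi (J m)
    have h3 := hpos (J m)
    rw [evm, ← evp]
    apply Icc_subset_Icc
    · linarith
    · rw [neg_div, neg_div, neg_le_neg_iff]
      exact div_le_div_of_nonneg_left hq0.le h3 (by linarith)
  · rw [evm]
    exact (hlim.const_add 1).neg
  · rw [← evp]
    exact (tendsto_const_nhds (x := -q)).div (hlim.const_add 1) hs0.ne'
  · intro m hm V E _ _ ends hG hcard v hv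
    apply graph_good (hpar (J m)) (hK1 (J m)) (hKT (J m)) hG
      (le_trans (hJspec m hm) hcard) v
    intro e
    obtain ⟨h1, h2⟩ := hv e
    refine ⟨h1, ?_⟩
    have : -(1 - (1 - q / (1 + τ (J m)))) = -q / (1 + τ (J m)) := by ring
    rw [this]; exact h2

end Pool.Agent.MP_58ca84_co
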