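import Pool.Agent.Lib.MP_58ca84_co.Iter
import Pool.Agent.Lib.MP_58ca84_co.Defs

/-!
# Matroid theorem and multigraphs
-/

namespace Pool.Agent.MP_58ca84_co

open Finset

section matroid

variable {α : Type*} [DecidableEq α]

theorem zz_insert {q : ℝ} (hq : 0 < q) (v : α → ℝ) (r : Finset α → ℤ) {E : Finset α} {e : α}
    (he : e ∈ E) (hre : r {e} = 1) :
    zz q v r E = zz q v r (E.erase e) + v e / q * zz q v (con r {e}) (E.erase e) := by
  unfold zz
  conv_lhs => rw [← insert_erase he]
  rw [sum_powerset_insert (notMem_erase e E), mul_sum]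
  congr 1
  apply sum_congr rfl
  intro A hA
  have heA : e ∉ A := fun h => (mem_erase.1 (mem_powerset.1 hA h)).1 rfl
  rw [prod_insert heA]
  have h1 : r (insert e A) = con r {e} A + 1 := by
    simp only [con]
    have : A ∪ {e} = insert e A := by ext x; simp
    rw [this, hre]; ring
  rw [h1]
  have h2 : -(con r {e} A + 1) = -(con r {e} A) + -1 := by ring
  rw [h2, zpow_add₀ hq.ne', zpow_neg_one]
  field_simp

theorem matroid_good {t y q : ℝ} (hp : Par t y q) {k : ℕ} (hk : 1 ≤ k)
    (H : ∀ n g d, k ≤ n → NetVal t y n g d → ∀ v, -(1 + t) ≤ v → v ≤ -(1 - y) →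
      0 < d - v / q * g)
    {r : Finset α → ℤ} (hr : IsRank r) {E : Finset α} (hc : Conn r E) (hcard : k + 1 ≤ E.card)
    (v : α → ℝ) (hv : ∀ e ∈ E, -(1 + t) ≤ v e ∧ v e ≤ -(1 - y)) :
    0 < (-1) ^ (r E) * zz q v r E / (1 - q) := by
  obtain ⟨e0, he0⟩ : E.Nonempty := by rw [← card_pos]; omega
  obtain ⟨n, hn⟩ : ∃ n, E.card = n + 1 := ⟨E.card - 1, by omega⟩
  obtain ⟨h1, h2⟩ := hc.elem hr (by omega) he0
  have hq := hp.hq
  have hN := netVal_of_conn (t := t) (y := y) (by rw [← hq]; exact hp.q0)
    (by rw [← hq]; exact hp.q1) v n r E e0 hr hc he0 hn (by omega)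
    (fun e he => hv e (mem_of_mem_erase he))
  rw [← hq] at hN
  have h3 := H n _ _ (by omega) hN (v e0) (hv e0 he0).1 (hv e0 he0).2
  have h4 : dd q v r E e0 - v e0 / q * gg q v r E e0 = (-1) ^ (r E) * zz q v r E / (1 - q) := by
    rw [zz_insert hp.q0 v r he0 h1]
    unfold dd gg
    ring
  rw [h4] at h3
  exact h3

end matroid

section graph

variable {V E : Type*}

theorem spanG_adj {ends : E → Sym2 V} {A : Set E} {x y : V} :
    (spanG ends A).Adj x y ↔ (∃ e ∈ A, ends e = s(x, y)) ∧ x ≠ y := by
  simp [spanG, SimpleGraph.fromEdgeSet_adj]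

/-- Functions constant on the components. -/
def constSub (G : SimpleGraph V) : Submodule ℝ (V → ℝ) where
  carrier := {f | ∀ x y, G.Adj x y → f x = f y}
  add_mem' := by
    intro f g hf hg x y h
    simp [hf x y h, hg x y h]
  zero_mem' := by
    intro x y _
    rfl
  smul_mem' := by
    intro c f hf x y h
    simp [hf x y h]

theorem constSub_reach {G : SimpleGraph V} {f : V → ℝ} (hf : f ∈ constSub G) {x y : V}
    (h : G.Reachable x y) : f x = f y := by
  obtain ⟨w⟩ := h
  induction w with
  | nil => rfl
  | cons hadj _ ih => exact (hf _ _ hadj).trans ih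

/-- Locally constant functions are functions on the set of components. -/
def constEquiv (G : SimpleGraph V) : (G.ConnectedComponent → ℝ) ≃ₗ[ℝ] constSub G where
  toFun g := ⟨fun x => g (G.connectedComponentMk x), by
    intro x y h
    have : G.connectedComponentMk x = G.connectedComponentMk y :=
      SimpleGraph.ConnectedComponent.eq.2 h.reachable
    simp only [this]⟩
  invFun f := fun c => c.lift (fun x => f.1 x) (by
    intro x y p _
    exact constSub_reach f.2 ⟨p⟩)
  left_inv := by
    intro g
    funext c
    induction c using SimpleGraph.ConnectedComponent.ind with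
    | _ x => rfl
  right_inv := by
    intro f
    ext x
    rfl
  map_add' := by
    intro f g; rfl
  map_smul' := by
    intro c f; rfl

theorem finrank_constSub [Fintype V] (G : SimpleGraph V) :
    Module.finrank ℝ (constSub G) = Nat.card G.ConnectedComponent := by
  classical
  have : Finite G.ConnectedComponent := Quot.finite _
  have : Fintype G.ConnectedComponent := Fintype.ofFinite _
  rw [← (constEquiv G).finrank_eq, Module.finrank_fintype_fun_eq_card, Nat.card_eq_fintype_card]

/-- The graphic rank function. -/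
noncomputable def grank [Fintype V] (ends : E → Sym2 V) (A : Finset E) : ℤ :=
  (Fintype.card V : ℤ) - comps ends (A : Set E)

theorem constSub_union (ends : E → Sym2 V) (A B : Set E) :
    constSub (spanG ends (A ∪ B)) = constSub (spanG ends A) ⊓ constSub (spanG ends B) := by
  ext f
  simp only [Submodule.mem_inf]
  constructor
  · intro h
    constructor
    · intro x y hxy
      apply h
      rw [spanG_adj] at hxy ⊢
      obtain ⟨⟨e, he, h1⟩, h2⟩ := hxy
      exact ⟨⟨e, Or.inl he, h1⟩, h2⟩
    · intro x y hxy
      apply h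
      rw [spanG_adj] at hxy ⊢
      obtain ⟨⟨e, he, h1⟩, h2⟩ := hxy
      exact ⟨⟨e, Or.inr he, h1⟩, h2⟩
  · rintro ⟨hA, hB⟩ x y hxy
    rw [spanG_adj] at hxy
    obtain ⟨⟨e, he, h1⟩, h2⟩ := hxy
    rcases he with he | he
    · exact hA x y (spanG_adj.2 ⟨⟨e, he, h1⟩, h2⟩)
    · exact hB x y (spanG_adj.2 ⟨⟨e, he, h1⟩, h2⟩)

theorem constSub_anti (ends : E → Sym2 V) {A B : Set E} (h : A ⊆ B) :
    constSub (spanG ends B) ≤ constSub (spanG ends A) := by
  intro f hf x y hxy
  apply hf
  rw [spanG_adj] at hxy ⊢
  obtain ⟨⟨e, he, h1⟩, h2⟩ := hxy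
  exact ⟨⟨e, h he, h1⟩, h2⟩

theorem isRank_grank [Fintype V] [DecidableEq E] (ends : E → Sym2 V) :
    IsRank (grank ends) where
  empty := by
    have h1 : constSub (spanG ends ((∅ : Finset E) : Set E)) = ⊤ := by
      rw [eq_top_iff]
      intro f _ x y hxy
      rw [spanG_adj] at hxy
      obtain ⟨⟨e, he, _⟩, _⟩ := hxy
      simp at he
    have h2 := finrank_constSub (spanG ends ((∅ : Finset E) : Set E))
    rw [h1, finrank_top, Module.finrank_fintype_fun_eq_card] at h2
    unfold grank comps
    rw [← h2]; simp
  mono := by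
    intro A B hAB
    have h1 := Submodule.finrank_mono (constSub_anti ends (coe_subset.2 hAB))
    rw [finrank_constSub, finrank_constSub] at h1
    unfold grank comps
    omega
  single := by
    intro e
    unfold grank comps
    rw [← finrank_constSub]
    -- a linear functional whose kernel is contained in `constSub`
    induction h : ends e using Sym2.ind with
    | _ x y =>
      let φ : (V → ℝ) →ₗ[ℝ] ℝ := (LinearMap.proj (R := ℝ) (φ := fun _ : V => ℝ) x) -
        (LinearMap.proj (R := ℝ) (φ := fun _ : V => ℝ) y)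
      have hker : LinearMap.ker φ ≤ constSub (spanG ends (({e} : Finset E) : Set E)) := by
        intro f hf a b hab
        rw [spanG_adj] at hab
        obtain ⟨⟨e', he', h1⟩, _⟩ := hab
        have he'' : e' = e := by simpa using he'
        rw [he'', h, Sym2.eq_iff] at h1
        have h2 : f x - f y = 0 := by
          have := LinearMap.mem_ker.1 hf
          simpa [φ] using this
        rcases h1 with ⟨h3, h4⟩ | ⟨h3, h4⟩
        · rw [← h3, ← h4]; linarith
        · rw [← h3, ← h4]; linarith
      have h1 := Submodule.finrank_mono hker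
      have h2 := LinearMap.finrank_range_add_finrank_ker φ
      have h3 : Module.finrank ℝ (LinearMap.range φ) ≤ 1 := by
        have := Submodule.finrank_le (LinearMap.range φ)
        simpa using this
      rw [Module.finrank_fintype_fun_eq_card] at h2
      omega
  submod := by
    intro A B
    have h1 := Submodule.finrank_sup_add_finrank_inf_eq
      (constSub (spanG ends (A : Set E))) (constSub (spanG ends (B : Set E)))
    rw [← constSub_union] at h1
    have h2 : constSub (spanG ends (A : Set E)) ⊔ constSub (spanG ends (B : Set E)) ≤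
        constSub (spanG ends ((A ∩ B : Finset E) : Set E)) := by
      apply sup_le
      · exact constSub_anti ends (coe_subset.2 inter_subset_left)
      · exact constSub_anti ends (coe_subset.2 inter_subset_right)
    have h3 := Submodule.finrank_mono h2
    rw [← coe_union] at h1
    rw [finrank_constSub, finrank_constSub, finrank_constSub] at h1
    rw [finrank_constSub] at h3
    unfold grank comps
    omega

theorem comps_one_of_connected {ends : E → Sym2 V} {A : Set E} (h : (spanG ends A).Connected) :
    comps ends A = 1 := by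
  unfold comps
  rw [Nat.card_eq_one_iff_unique]
  refine ⟨?_, ?_⟩
  · exact h.preconnected.subsingleton_connectedComponent
  · obtain ⟨x⟩ := h.nonempty
    exact ⟨(spanG ends A).connectedComponentMk x⟩

theorem comps_star_compl [Fintype V] {ends : E → Sym2 V} (h : TwoConn ends) (x : V) :
    2 ≤ comps ends {e | x ∉ ends e} := by
  unfold comps
  have hfin : Finite (spanG ends {e | x ∉ ends e}).ConnectedComponent := Quot.finite _
  obtain ⟨z, hz⟩ : ∃ z, z ≠ x := by
    by_contra hcon
    push Not at hcon
    have : Fintype.card V ≤ 1 := Fintype.card_le_one_iff.2 (fun a b => by rw [hcon a, hcon b])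
    have := h.two
    omega
  have hne : (spanG ends {e | x ∉ ends e}).connectedComponentMk x ≠
      (spanG ends {e | x ∉ ends e}).connectedComponentMk z := by
    intro heq
    rw [SimpleGraph.ConnectedComponent.eq] at heq
    obtain ⟨w⟩ := heq
    cases w with
    | nil => exact hz rfl
    | cons hadj _ =>
      rw [spanG_adj] at hadj
      obtain ⟨⟨e, he, h1⟩, _⟩ := hadj
      apply he
      rw [h1]
      exact Sym2.mem_mk_left _ _
  have : Nontrivial (spanG ends {e | x ∉ ends e}).ConnectedComponent := ⟨_, _, hne⟩
  have := Finite.one_lt_card (α := (spanG ends {e | x ∉ ends e}).ConnectedComponent)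
  omega

theorem connected_insert_star [Fintype V] {ends : E → Sym2 V} (h : TwoConn ends) {x : V}
    {e : E} (he : x ∈ ends e) : (spanG ends (insert e {e | x ∉ ends e})).Connected := by
  obtain ⟨w, hw⟩ : ∃ w, ends e = s(x, w) := by
    obtain ⟨w, hw⟩ := he
    exact ⟨w, hw⟩
  have hxw : x ≠ w := by
    intro hxw
    apply h.loopless e
    rw [hw, hxw]
    exact Sym2.mk_isDiag_iff.2 rfl
  have hadj : (spanG ends (insert e {e | x ∉ ends e})).Adj x w := by
    rw [spanG_adj]
    exact ⟨⟨e, Set.mem_insert _ _, hw⟩, hxw⟩
  have hreach : ∀ a, (spanG ends (insert e {e | x ∉ ends e})).Reachable a w := by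
    intro a
    by_cases hax : a = x
    · rw [hax]; exact hadj.reachable
    · have h1 := (h.cut x).preconnected ⟨a, hax⟩ ⟨w, fun hh => hxw hh.symm⟩
      let φ : ((spanG ends Set.univ).induce {x}ᶜ) →g (spanG ends (insert e {e | x ∉ ends e})) :=
        { toFun := fun a => a.1
          map_rel' := by
            rintro ⟨a, ha⟩ ⟨b, hb⟩ hab
            have hab' : (spanG ends Set.univ).Adj a b := hab
            rw [spanG_adj] at hab'
            obtain ⟨⟨e', _, h2⟩, h3⟩ := hab'
            change (spanG ends (insert e {e | x ∉ ends e})).Adj a b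
            rw [spanG_adj]
            refine ⟨⟨e', Set.mem_insert_of_mem _ ?_, h2⟩, h3⟩
            change x ∉ ends e'
            rw [h2, Sym2.mem_iff]
            rintro (h4 | h4)
            · exact ha h4.symm
            · exact hb h4.symm }
      exact h1.map φ
  have : Nonempty V := ⟨x⟩
  refine ⟨fun a b => (hreach a).trans (hreach b).symm⟩

/-- The graphic matroid of a 2-connected multigraph is connected. -/
theorem conn_of_twoConn [Fintype V] [Fintype E] [DecidableEq E] {ends : E → Sym2 V}
    (h : TwoConn ends) : Conn (grank ends) (Finset.univ : Finset E) := by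
  classical
  intro X _ hXn hXne
  have hr := isRank_grank ends
  by_contra hcon
  push Not at hcon
  obtain ⟨Y, hY⟩ : ∃ Y, Y = (Finset.univ : Finset E) \ X := ⟨_, rfl⟩
  rw [← hY] at hcon
  have hXY : X ∪ Y = Finset.univ := by
    rw [hY]; ext e; simp
  have hdisj : ∀ e, e ∈ X → e ∈ Y → False := by
    intro e he1 he2
    rw [hY, mem_sdiff] at he2
    exact he2.2 he1
  have hrU : grank ends (Finset.univ : Finset E) = Fintype.card V - 1 := by
    unfold grank
    rw [coe_univ, comps_one_of_connected h.conn]; simp
  have hYn : Y.Nonempty := by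
    rw [hY, sdiff_nonempty]
    intro hsub
    exact hXne (Finset.eq_univ_iff_forall.2 (fun e => hsub (Finset.mem_univ e)))
  -- direct sum property
  have hds : ∀ Z : Finset E, grank ends (Z ∩ X) + grank ends (Z ∩ Y) ≤ grank ends Z := by
    intro Z
    have h1 := hr.submod Z X
    have h2 := hr.submod (Z ∪ X) Y
    have h3 : (Z ∪ X) ∪ Y = Finset.univ := by
      rw [union_assoc, hXY]; ext e; simp
    have h4 : Z ∩ Y ⊆ (Z ∪ X) ∩ Y := by
      intro e he
      rw [mem_inter] at he ⊢
      exact ⟨mem_union_left _ he.1, he.2⟩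
    have h5 := hr.mono _ _ h4
    rw [h3] at h2
    omega
  -- no vertex star meets both sides
  have hstar : ∀ x : V, ∀ e ∈ X, ∀ f ∈ Y, x ∈ ends e → x ∈ ends f → False := by
    intro x e heX f hfY hxe hxf
    obtain ⟨A0, hA0⟩ : ∃ A0 : Finset E, A0 = Finset.univ.filter (fun g => x ∉ ends g) := ⟨_, rfl⟩
    have hA0c : (A0 : Set E) = {e | x ∉ ends e} := by
      rw [hA0]; ext g; simp
    have r0 : grank ends A0 ≤ Fintype.card V - 2 := by
      have := comps_star_compl h x
      unfold grank
      rw [hA0c]; omega
    have rins : ∀ g, x ∈ ends g → grank ends (insert g A0) = Fintype.card V - 1 := by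
      intro g hg
      unfold grank
      rw [coe_insert, hA0c, comps_one_of_connected (connected_insert_star h hg)]; simp
    have k1 : Fintype.card V - 1 ≤ grank ends X + grank ends (A0 ∩ Y) := by
      have h1 := rins e hxe
      have h2 : insert e A0 ⊆ X ∪ (A0 ∩ Y) := by
        intro g hg
        rcases mem_insert.1 hg with h3 | h3
        · exact mem_union_left _ (h3 ▸ heX)
        · have : g ∈ X ∪ Y := hXY ▸ Finset.mem_univ g
          rcases mem_union.1 this with h4 | h4
          · exact mem_union_left _ h4
          · exact mem_union_right _ (mem_inter.2 ⟨h3, h4⟩)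
      have h3 := hr.mono _ _ h2
      have h4 := hr.subadd X (A0 ∩ Y)
      omega
    have k2 : Fintype.card V - 1 ≤ grank ends (A0 ∩ X) + grank ends Y := by
      have h1 := rins f hxf
      have h2 : insert f A0 ⊆ (A0 ∩ X) ∪ Y := by
        intro g hg
        rcases mem_insert.1 hg with h3 | h3
        · exact mem_union_right _ (h3 ▸ hfY)
        · have : g ∈ X ∪ Y := hXY ▸ Finset.mem_univ g
          rcases mem_union.1 this with h4 | h4
          · exact mem_union_left _ (mem_inter.2 ⟨h3, h4⟩)
          · exact mem_union_right _ h4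
      have h3 := hr.mono _ _ h2
      have h4 := hr.subadd (A0 ∩ X) Y
      omega
    have k3 := hds A0
    have k4 := hr.subadd X Y
    rw [hXY] at k4
    omega
  -- propagate along edges
  obtain ⟨e, he⟩ := hXn
  obtain ⟨f, hf⟩ := hYn
  obtain ⟨a, ha⟩ : ∃ a, a ∈ ends e := by
    induction hh : ends e using Sym2.ind with
    | _ p q => exact ⟨p, Sym2.mem_mk_left _ _⟩
  obtain ⟨b, hb⟩ : ∃ b, b ∈ ends f := by
    induction hh : ends f using Sym2.ind with
    | _ p q => exact ⟨p, Sym2.mem_mk_left _ _⟩
  obtain ⟨w⟩ := h.conn.preconnected a b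
  have hprop : ∀ {p q : V}, (spanG ends Set.univ).Walk p q → (∃ g ∈ X, p ∈ ends g) →
      (∃ g ∈ X, q ∈ ends g) := by
    intro p q w
    induction w with
    | nil => exact id
    | @cons u v' w' hadj _ ih =>
      rintro ⟨g, hg, hgu⟩
      apply ih
      rw [spanG_adj] at hadj
      obtain ⟨⟨e', _, h2⟩, _⟩ := hadj
      have h3 : e' ∈ X ∪ Y := hXY ▸ Finset.mem_univ e'
      rcases mem_union.1 h3 with h4 | h4
      · exact ⟨e', h4, by rw [h2]; exact Sym2.mem_mk_right _ _⟩
      · exact absurd (hstar u g hg e' h4 hgu (by rw [h2]; exact Sym2.mem_mk_left _ _)) id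
  obtain ⟨g, hg, hgb⟩ := hprop w ⟨e, he, ha⟩
  exact hstar b g hg f hf hgb hb

theorem ZG_eq [Fintype V] [Fintype E] (ends : E → Sym2 V) {q : ℝ} (hq : 0 < q) (v : E → ℝ) :
    ZG ends q v = q ^ Fintype.card V * zz q v (grank ends) (Finset.univ : Finset E) := by
  unfold ZG zz
  rw [mul_sum]
  have : (Finset.univ : Finset E).powerset = Finset.univ := by
    ext A; simp
  rw [this]
  apply sum_congr rfl
  intro A _
  rw [← mul_assoc]
  congr 1
  unfold grank
  have h1 : -((Fintype.card V : ℤ) - comps ends (A : Set E)) =
      (comps ends (A : Set E) : ℤ) - (Fintype.card V : ℤ) := by ring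
  rw [h1, zpow_sub₀ hq.ne', zpow_natCast, zpow_natCast]
  field_simp

/-- The main statement for 2-connected multigraphs. -/
theorem graph_good {t y q : ℝ} (hp : Par t y q) {k : ℕ} (hk : 1 ≤ k)
    (H : ∀ n g d, k ≤ n → NetVal t y n g d → ∀ v, -(1 + t) ≤ v → v ≤ -(1 - y) →
      0 < d - v / q * g)
    [Fintype V] [Fintype E] {ends : E → Sym2 V} (h : TwoConn ends)
    (hcard : k + 1 ≤ Fintype.card E) (v : E → ℝ)
    (hv : ∀ e, -(1 + t) ≤ v e ∧ v e ≤ -(1 - y)) :
    0 < (-1) ^ (Fintype.card V + if q < 1 then 1 else 0) * ZG ends q v := by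
  classical
  have h1 := matroid_good hp hk H (isRank_grank ends) (conn_of_twoConn h)
    (by rw [Finset.card_univ]; exact hcard) v (fun e _ => hv e)
  have hrU : grank ends (Finset.univ : Finset E) = Fintype.card V - 1 := by
    unfold grank
    rw [coe_univ, comps_one_of_connected h.conn]; simp
  rw [hrU, neg_one_zpow_sub_one, zpow_natCast] at h1
  rw [ZG_eq ends hp.q0]
  have hqn : 0 < q ^ Fintype.card V := pow_pos hp.q0 _
  rcases hp.lt_or_gt with hq | hq
  · rw [if_pos hq, pow_succ]
    have h2 : 0 < (1 - q) := by linarith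
    have h3 := mul_pos h1 h2
    rw [div_mul_cancel₀ _ h2.ne'] at h3
    have h4 := mul_pos hqn h3
    have e : (-1 : ℝ) ^ Fintype.card V * -1 *
        (q ^ Fintype.card V * zz q v (grank ends) (Finset.univ : Finset E)) =
        q ^ Fintype.card V * (-(-1) ^ Fintype.card V * zz q v (grank ends) Finset.univ) := by
      ring
    rw [e]; exact h4
  · rw [if_neg (by linarith), add_zero]
    have h2 : 0 < (q - 1) := by linarith
    have h3 := mul_pos h1 h2
    have e3 : -(-1) ^ Fintype.card V * zz q v (grank ends) (Finset.univ : Finset E) / (1 - q) *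
        (q - 1) = (-1) ^ Fintype.card V * zz q v (grank ends) (Finset.univ : Finset E) := by
      have h5 : 1 - q ≠ 0 := by linarith
      field_simp; ring
    rw [e3] at h3
    have h4 := mul_pos hqn h3
    have e : (-1 : ℝ) ^ Fintype.card V *
        (q ^ Fintype.card V * zz q v (grank ends) (Finset.univ : Finset E)) =
        q ^ Fintype.card V * ((-1) ^ Fintype.card V * zz q v (grank ends) Finset.univ) := by
      ring
    rw [e]; exact h4

end graph

end Pool.Agent.MP_58ca84_co
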