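import Pool.Agent.Lib.MP_58ca84_co.Step

/-!
# Iterating the improvement step
-/

namespace Pool.Agent.MP_58ca84_co

open Set

theorem pos_of_mul {a b : ℝ} (h : 0 < a * b) (ha : 0 ≤ a) : 0 < b := by
  by_contra hb
  push Not at hb
  have := mul_nonpos_of_nonneg_of_nonpos ha hb
  linarith

theorem pos_lb {f : ℝ → ℝ} (hf : Continuous f) {a b : ℝ} (hab : a ≤ b)
    (hpos : ∀ x, a ≤ x → x ≤ b → 0 < f x) : ∃ c > 0, ∀ x, a ≤ x → x ≤ b → c ≤ f x := by
  obtain ⟨x0, hx0, hmin⟩ := isCompact_Icc.exists_isMinOn (nonempty_Icc.2 hab) hf.continuousOn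
  refine ⟨f x0, hpos x0 hx0.1 hx0.2, ?_⟩
  intro x h1 h2
  exact hmin ⟨h1, h2⟩

section
variable {t y q V : ℝ}

theorem Par.e1 (hp : Par t y q) : 1 - q = y * (1 + t) - t := by rw [hp.hq]; ring

theorem f2_pos (hp : Par t y q) (hV : Crude t y q V) {W : ℝ} (h1 : 1 / y ≤ W) (h2 : W ≤ V) :
    0 < W * (1 - (1 - q) * W) - t * (W - 1) := by
  have hy0 := hp.y0
  have hy1 := hp.y1
  have ht0 := hp.t0
  have hty := hp.ty
  have ht1 := hp.t1
  have hW0 : 0 < W := lt_of_lt_of_le (by positivity) h1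
  rcases hp.lt_or_gt with hq | hq
  · have hVe := hV.lt hq
    have e1 := hp.e1
    obtain ⟨s, hs⟩ : ∃ s, s = 1 - q := ⟨_, rfl⟩
    rw [← hs] at hVe e1 ⊢
    have hs0 : 0 < s := by linarith
    have hV0 : 0 < V := lt_of_lt_of_le hW0 h2
    -- value at V
    have k1 : 0 < s * (V * (1 - s * V) - t * (V - 1)) := by
      have : s * (V * (1 - s * V) - t * (V - 1)) = (s * V) * (1 - s * V) - t * (s * V - s) := by
        ring
      rw [this, hVe, e1]
      have : y * (1 - y) - t * (y - (y * (1 + t) - t)) = (1 - y) * (y - t ^ 2) := by ring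
      rw [this]
      exact mul_pos (by linarith) (by linarith)
    have k2 : 0 < V * (1 - s * V) - t * (V - 1) := by
      by_contra h
      push Not at h
      have := mul_nonpos_of_nonneg_of_nonpos hs0.le h
      linarith
    have k3 : V * (W * (1 - s * W) - t * (W - 1)) =
        W * (V * (1 - s * V) - t * (V - 1)) + (V - W) * (s * W * V + t) := by ring
    have k4 : 0 ≤ (V - W) * (s * W * V + t) := by
      apply mul_nonneg (by linarith)
      positivity
    have k5 : 0 < V * (W * (1 - s * W) - t * (W - 1)) := by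
      rw [k3]
      have := mul_pos hW0 k2
      linarith
    exact pos_of_mul k5 hV0.le
  · have k1 : 0 ≤ (q - 1) * W * W := by
      apply mul_nonneg (mul_nonneg (by linarith) hW0.le) hW0.le
    have k2 : 0 < W * (1 - t) := mul_pos hW0 (by linarith)
    nlinarith

theorem y2_pos (hp : Par t y q) : 0 < (1 - y) * (y - t ^ 2) :=
  mul_pos (by linarith [hp.y1]) (by linarith [hp.ty])

theorem f3_pos (hp : Par t y q) (hV : Crude t y q V) {W : ℝ} (h1 : 1 / y ≤ W) (h2 : W ≤ V) :
    0 < W * (1 + (1 - q) * t * W) - (1 + t * W) := by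
  have hy0 := hp.y0
  have hy1 := hp.y1
  have ht0 := hp.t0
  have hty := hp.ty
  have ht1 := hp.t1
  have hW0 : 0 < W := lt_of_lt_of_le (by positivity) h1
  have hyy := y2_pos hp
  have h1' : 1 ≤ y * W := by
    rw [div_le_iff₀ hy0] at h1; linarith
  rcases hp.lt_or_gt with hq | hq
  · have e1 := hp.e1
    obtain ⟨s, hs⟩ : ∃ s, s = 1 - q := ⟨_, rfl⟩
    rw [← hs] at e1 ⊢
    have hs0 : 0 < s := by linarith
    -- multiply by y^2
    have k1 : 1 ≤ (y * W) ^ 2 := by nlinarith
    have k2 : 0 < y ^ 2 * (W * (1 + s * t * W) - (1 + t * W)) := by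
      have e2 : y ^ 2 * (W * (1 + s * t * W) - (1 + t * W)) =
          s * t * (y * W) ^ 2 + (1 - t) * y * (y * W) - y ^ 2 := by ring
      rw [e2]
      have k3 : s * t * 1 ≤ s * t * (y * W) ^ 2 :=
        mul_le_mul_of_nonneg_left k1 (by positivity)
      have k4 : (1 - t) * y * 1 ≤ (1 - t) * y * (y * W) :=
        mul_le_mul_of_nonneg_left h1' (mul_nonneg (by linarith) hy0.le)
      have k5 : s * t * 1 + (1 - t) * y * 1 - y ^ 2 = (1 - y) * (y - t ^ 2) := by
        rw [e1]; ring
      linarith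
    exact pos_of_mul k2 (by positivity)
  · have hVe := hV.gt hq
    have e1 := hp.e1
    obtain ⟨s, hs⟩ : ∃ s, s = q - 1 := ⟨_, rfl⟩
    have hs0 : 0 < s := by linarith
    rw [← hs] at hVe
    have hq1 : 1 - q = -s := by linarith
    rw [hq1]
    have e2 : s = t - y * (1 + t) := by linarith
    -- value at 1/y, multiplied by y^2
    obtain ⟨a, ha⟩ : ∃ a, a = 1 / y := ⟨_, rfl⟩
    have hya : y * a = 1 := by rw [ha]; field_simp
    have ha0 : 0 < a := by rw [ha]; positivity
    have k1 : 0 < a * (1 + -s * t * a) - (1 + t * a) := by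
      have : y ^ 2 * (a * (1 + -s * t * a) - (1 + t * a)) = (1 - y) * (y - t ^ 2) := by
        have : y ^ 2 * (a * (1 + -s * t * a) - (1 + t * a)) =
          -s * t * (y * a) ^ 2 + (1 - t) * y * (y * a) - y ^ 2 := by ring
        rw [this, hya, e2]; ring
      refine pos_of_mul (a := y ^ 2) ?_ (by positivity)
      rw [this]; exact hyy
    have k2 : 0 < V * (1 + -s * t * V) - (1 + t * V) := by
      have : s * (V * (1 + -s * t * V) - (1 + t * V)) = (1 + t) * (y - t ^ 2) := by
        have : s * (V * (1 + -s * t * V) - (1 + t * V)) =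
          (s * V) - t * (s * V) ^ 2 - s - t * (s * V) := by ring
        rw [this, hVe, e2]; ring
      refine pos_of_mul (a := s) ?_ hs0.le
      rw [this]; exact mul_pos (by linarith) (by linarith)
    rw [← ha] at h1
    rcases eq_or_lt_of_le h1 with h3 | h3
    · rw [← h3]; exact k1
    · have haV : a < V := lt_of_lt_of_le h3 h2
      have k3 : (V - a) * (W * (1 + -s * t * W) - (1 + t * W)) =
          (V - W) * (a * (1 + -s * t * a) - (1 + t * a)) +
          (W - a) * (V * (1 + -s * t * V) - (1 + t * V)) +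
          s * t * ((W - a) * (V - W) * (V - a)) := by ring
      have k4 : 0 < (V - a) * (W * (1 + -s * t * W) - (1 + t * W)) := by
        rw [k3]
        have m1 : 0 ≤ (V - W) * (a * (1 + -s * t * a) - (1 + t * a)) :=
          mul_nonneg (by linarith) k1.le
        have m2 : 0 < (W - a) * (V * (1 + -s * t * V) - (1 + t * V)) :=
          mul_pos (by linarith) k2
        have m3 : 0 ≤ s * t * ((W - a) * (V - W) * (V - a)) :=
          mul_nonneg (by positivity) (mul_nonneg (mul_nonneg (by linarith) (by linarith))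
            (by linarith))
        linarith
      exact pos_of_mul k4 (by linarith)

theorem fA1_pos (hp : Par t y q) {W : ℝ} (h1 : 1 / y ≤ W) :
    0 < (W - 1) - t * (1 - y) * W := by
  have hy0 := hp.y0
  have hy1 := hp.y1
  have ht0 := hp.t0
  have ht1 := hp.t1
  have h1' : 1 ≤ y * W := by
    rw [div_le_iff₀ hy0] at h1; linarith
  have h2 : 0 < 1 - t * (1 - y) := by nlinarith
  refine pos_of_mul (a := y) ?_ hy0.le
  have e : y * ((W - 1) - t * (1 - y) * W) = (1 - t * (1 - y)) * (y * W) - y := by ring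
  rw [e]
  have k1 : (1 - t * (1 - y)) * 1 ≤ (1 - t * (1 - y)) * (y * W) :=
    mul_le_mul_of_nonneg_left h1' h2.le
  have k2 : 0 < (1 - t) * (1 - y) := mul_pos (by linarith) (by linarith)
  nlinarith

theorem gt_facts (hp : Par t y q) (hq : 1 < q) :
    0 < t ∧ 0 < 1 - t - t ^ 2 ∧ 0 < t - 2 * t * y - y ^ 2 ∧ 2 * y < 1 := by
  have hy0 := hp.y0
  have hy1 := hp.y1
  have ht0 := hp.t0
  have ht1 := hp.t1
  have hty := hp.ty
  have e1 := hp.e1
  have h1 : y * (1 + t) < t := by linarith
  have ht : 0 < t := by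
    have : 0 < y * (1 + t) := by positivity
    linarith
  have h2 : 0 < 1 - t - t ^ 2 := by
    have h3 : t ^ 2 * (1 + t) < t := by
      have : t ^ 2 * (1 + t) < y * (1 + t) := mul_lt_mul_of_pos_right hty (by linarith)
      linarith
    have h4 : t * (1 - t - t ^ 2) = t - t ^ 2 * (1 + t) := by ring
    exact pos_of_mul (by rw [h4]; linarith) ht.le
  refine ⟨ht, h2, ?_, ?_⟩
  · obtain ⟨u, hu⟩ : ∃ u, u = t - y * (1 + t) := ⟨_, rfl⟩
    have hu0 : 0 < u := by linarith
    have hut : u < t := by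
      have : 0 < y * (1 + t) := by positivity
      linarith
    refine pos_of_mul (a := (1 + t) ^ 2) ?_ (by positivity)
    have e : (1 + t) ^ 2 * (t - 2 * t * y - y ^ 2) =
        t * (1 - t - t ^ 2) + 2 * t * (1 + t) * u + u * (2 * t - u) := by
      rw [hu]; ring
    rw [e]
    have m1 := mul_pos ht h2
    have m2 : 0 < 2 * t * (1 + t) * u := by positivity
    have m3 : 0 < u * (2 * t - u) := mul_pos hu0 (by linarith)
    linarith
  · have : 2 * y * (1 + t) < 1 * (1 + t) := by linarith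
    exact lt_of_mul_lt_mul_right this (by linarith)

theorem fA2_pos (hp : Par t y q) (hq : 1 < q) {W : ℝ} (h1 : 1 / y ≤ W) :
    0 < W * (1 + (q - 1) * W) - (1 + t * W) := by
  have hy0 := hp.y0
  have hy1 := hp.y1
  have ht0 := hp.t0
  have ht1 := hp.t1
  have h1' : 1 ≤ y * W := by
    rw [div_le_iff₀ hy0] at h1; linarith
  obtain ⟨_, _, h3, _⟩ := gt_facts hp hq
  have e1 := hp.e1
  obtain ⟨s, hs⟩ : ∃ s, s = q - 1 := ⟨_, rfl⟩
  have hs0 : 0 < s := by linarith
  have e2 : s = t - y * (1 + t) := by linarith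
  rw [← hs]
  refine pos_of_mul (a := y ^ 2) ?_ (by positivity)
  have e : y ^ 2 * (W * (1 + s * W) - (1 + t * W)) =
      s * (y * W) ^ 2 + (1 - t) * y * (y * W) - y ^ 2 := by ring
  rw [e]
  have k1 : 1 ≤ (y * W) ^ 2 := by nlinarith
  have k3 : s * 1 ≤ s * (y * W) ^ 2 := mul_le_mul_of_nonneg_left k1 hs0.le
  have k4 : (1 - t) * y * 1 ≤ (1 - t) * y * (y * W) :=
    mul_le_mul_of_nonneg_left h1' (mul_nonneg (by linarith) hy0.le)
  have k5 : s * 1 + (1 - t) * y * 1 - y ^ 2 = t - 2 * t * y - y ^ 2 := by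
    rw [e2]; ring
  linarith

/-- A uniform improvement is possible on the whole range `[1/y, V]`. -/
theorem cond_eps (hp : Par t y q) (hV : Crude t y q V) (hyV : 1 / y ≤ V) :
    ∃ e > 0, ∀ W, 1 / y ≤ W → W ≤ V → Cond t y q W (W - e) := by
  have hy0 := hp.y0
  have hy1 := hp.y1
  have ht0 := hp.t0
  have ht1 := hp.t1
  have hinv : 1 < 1 / y := by rw [lt_div_iff₀ hy0]; linarith
  obtain ⟨c2, hc2, b2⟩ := pos_lb (f := fun W => W * (1 - (1 - q) * W) - t * (W - 1))
    (by fun_prop) hyV (fun W h1 h2 => f2_pos hp hV h1 h2)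
  obtain ⟨c3, hc3, b3⟩ := pos_lb (f := fun W => W * (1 + (1 - q) * t * W) - (1 + t * W))
    (by fun_prop) hyV (fun W h1 h2 => f3_pos hp hV h1 h2)
  obtain ⟨cA, hcA, bA⟩ := pos_lb (f := fun W => (W - 1) - t * (1 - y) * W)
    (by fun_prop) hyV (fun W h1 _ => fA1_pos hp h1)
  -- facts valid on the range
  have hrange : ∀ W, 1 / y ≤ W → W ≤ V → 1 - y ≤ 1 - (1 - q) * W ∧ 1 - (1 - q) * W ≤ 2 := by
    intro W h1 h2
    have hW0 : 0 < W := lt_of_lt_of_le (by positivity) h1
    rcases hp.lt_or_gt with hq | hq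
    · have hVe := hV.lt hq
      have k1 : (1 - q) * W ≤ (1 - q) * V := mul_le_mul_of_nonneg_left h2 (by linarith)
      have k2 : 0 ≤ (1 - q) * W := mul_nonneg (by linarith) hW0.le
      constructor <;> linarith
    · have hVe := hV.gt hq
      have k1 : (q - 1) * W ≤ (q - 1) * V := mul_le_mul_of_nonneg_left h2 (by linarith)
      have k2 : 0 ≤ (q - 1) * W := mul_nonneg (by linarith) hW0.le
      constructor <;> linarith
  have hA2 : ∃ c > 0, ∀ W, 1 / y ≤ W → W ≤ V → 1 < q →
      c ≤ W * (1 + (q - 1) * W) - (1 + t * W) := by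
    rcases hp.lt_or_gt with hq | hq
    · exact ⟨1, one_pos, fun W _ _ h => absurd h (by linarith)⟩
    · obtain ⟨c, hc, b⟩ := pos_lb (f := fun W => W * (1 + (q - 1) * W) - (1 + t * W))
        (by fun_prop) hyV (fun W h1 _ => fA2_pos hp hq h1)
      exact ⟨c, hc, fun W h1 h2 _ => b W h1 h2⟩
  obtain ⟨cB, hcB, bB⟩ := hA2
  have hB : ∃ c > 0, 1 < q → c ≤ (1 - 2 * y) * (1 / y - 1) := by
    rcases hp.lt_or_gt with hq | hq
    · exact ⟨1, one_pos, fun h => absurd h (by linarith)⟩
    · obtain ⟨_, _, _, h4⟩ := gt_facts hp hq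
      exact ⟨_, mul_pos (by linarith) (by linarith), fun _ => le_refl _⟩
  obtain ⟨cC, hcC, bC⟩ := hB
  obtain ⟨d, hd⟩ : ∃ d, d = (1 - y) * (1 / y - 1) := ⟨_, rfl⟩
  have hd0 : 0 < d := by rw [hd]; exact mul_pos (by linarith) (by linarith)
  have hd1 : d ≤ 1 / y - 1 := by rw [hd]; nlinarith
  obtain ⟨e, he, e2, e3, eA, eB, eC, eD, eE⟩ : ∃ e > 0, 2 * e ≤ c2 ∧ 2 * e ≤ c3 ∧ 2 * e ≤ cA ∧
      2 * e ≤ cB ∧ 2 * e ≤ cC ∧ 2 * e ≤ d ∧ 2 * e ≤ (1 - y) * d := by
    have hdd : 0 < (1 - y) * d := mul_pos (by linarith) hd0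
    refine ⟨(min c2 (min c3 (min cA (min cB (min cC (min d ((1 - y) * d))))))) / 2, ?_, ?_, ?_,
      ?_, ?_, ?_, ?_, ?_⟩
    · have : 0 < min c2 (min c3 (min cA (min cB (min cC (min d ((1 - y) * d)))))) := by
        simp only [lt_min_iff]
        exact ⟨hc2, hc3, hcA, hcB, hcC, hd0, hdd⟩
      linarith
    all_goals
      rw [mul_div_cancel₀ _ (two_ne_zero)]
      simp
  refine ⟨e, he, ?_⟩
  intro W h1 h2
  have hW0 : 0 < W := lt_of_lt_of_le (by positivity) h1
  obtain ⟨r1, r2⟩ := hrange W h1 h2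
  have hW1 : 1 / y - 1 ≤ W - 1 := by linarith
  have hdW : d ≤ (1 - y) * (W - 1) := by
    rw [hd]; exact mul_le_mul_of_nonneg_left hW1 (by linarith)
  have hW11 : 0 < W - 1 := by linarith
  constructor
  · linarith
  · linarith
  · linarith
  · rcases hp.lt_or_gt with hq | hq
    · have : (1 - q) * (W - e) ≤ (1 - q) * W :=
        mul_le_mul_of_nonneg_left (by linarith) (by linarith)
      linarith
    · have : 0 ≤ (q - 1) * (W - e) := mul_nonneg (by linarith) (by linarith)
      linarith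
  · nlinarith
  · have := b2 W h1 h2
    nlinarith
  · have := b3 W h1 h2
    have k : 1 + (1 - q) * t * W ≤ 2 := by
      rcases hp.lt_or_gt with hq | hq
      · have hVe := hV.lt hq
        have k1 : (1 - q) * W ≤ (1 - q) * V := mul_le_mul_of_nonneg_left h2 (by linarith)
        have k2 : t * ((1 - q) * W) ≤ 1 * ((1 - q) * W) :=
          mul_le_mul_of_nonneg_right ht1.le (mul_nonneg (by linarith) hW0.le)
        linarith
      · have : 0 ≤ (q - 1) * (t * W) := mul_nonneg (by linarith) (by positivity)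
        linarith
    nlinarith
  · -- c4
    have e4 : (W - e) * ((1 - (1 - q) * W) + (1 - q) * y * (W - 1)) -
        ((1 - (1 - q) * W) + y * (W - 1)) =
        (1 - y) * (W - 1) * (1 - (1 - q) * W) -
          e * ((1 - (1 - q) * W) + (1 - q) * y * (W - 1)) := by ring
    have k : (1 - (1 - q) * W) + (1 - q) * y * (W - 1) ≤ 2 := by
      rcases hp.lt_or_gt with hq | hq
      · have hVe := hV.lt hq
        have e5 : (1 - (1 - q) * W) + (1 - q) * y * (W - 1) =
          1 - (1 - q) * (W * (1 - y) + y) := by ring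
        rw [e5]
        have : 0 ≤ (1 - q) * (W * (1 - y) + y) := by
          apply mul_nonneg (by linarith)
          have := mul_nonneg hW0.le (by linarith : (0:ℝ) ≤ 1 - y)
          linarith
        linarith
      · have : 0 ≤ (q - 1) * (y * (W - 1)) :=
          mul_nonneg (by linarith) (mul_nonneg hy0.le hW11.le)
        linarith
    have k2 : e * ((1 - (1 - q) * W) + (1 - q) * y * (W - 1)) ≤ e * 2 :=
      mul_le_mul_of_nonneg_left k he.le
    have k3 : d * (1 - y) ≤ (1 - y) * (W - 1) * (1 - (1 - q) * W) :=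
      mul_le_mul hdW r1 (by linarith) (mul_nonneg (by linarith) hW11.le)
    linarith
  · nlinarith
  · nlinarith
  · intro _
    have := bA W h1 h2
    linarith
  · intro hq
    have := bB W h1 h2 hq
    have k : 1 + (q - 1) * W ≤ 2 := by linarith
    have k2 : e * (1 + (q - 1) * W) ≤ e * 2 := mul_le_mul_of_nonneg_left k he.le
    nlinarith
  · intro hq
    have h3 := bC hq
    obtain ⟨_, _, _, h4⟩ := gt_facts hp hq
    have k : (1 - 2 * y) * (1 / y - 1) ≤ (1 - 2 * y) * (W - 1) :=
      mul_le_mul_of_nonneg_left hW1 (by linarith)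
    nlinarith

/-- The key analytic statement: for large networks the bound drops below `1/y`. -/
theorem exists_bound (hp : Par t y q) (hV : Crude t y q V) :
    ∃ W, 1 ≤ W ∧ W < 1 / y ∧ ∃ k : ℕ, 1 ≤ k ∧
      ∀ n g d, k ≤ n → NetVal t y n g d → QP W q g d := by
  have hy0 := hp.y0
  have hy1 := hp.y1
  have hinv : 1 < 1 / y := by rw [lt_div_iff₀ hy0]; linarith
  have hmono : ∀ W W', W ≤ W' → (∃ k : ℕ, 1 ≤ k ∧
      ∀ n g d, k ≤ n → NetVal t y n g d → QP W q g d) → (∃ k : ℕ, 1 ≤ k ∧
      ∀ n g d, k ≤ n → NetVal t y n g d → QP W' q g d) := by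
    rintro W W' h ⟨k, hk, hQ⟩
    refine ⟨k, hk, fun n g d hn hN => ?_⟩
    exact (hQ n g d hn hN).mono (hN.t1 hp).pos ((hN.t1 hp).posB hp.t0) h
  have hcrude : ∃ k : ℕ, 1 ≤ k ∧ ∀ n g d, k ≤ n → NetVal t y n g d → QP V q g d :=
    ⟨1, le_refl _, fun n g d _ hN => hV.qp hp (hN.t1 hp)⟩
  rcases lt_or_ge V (1 / y) with hlt | hge
  · exact ⟨V, hV.one_le hp, hlt, hcrude⟩
  · obtain ⟨e, he, hC⟩ := cond_eps hp hV hge
    have hone : 1 ≤ 1 / y - e := (hC (1 / y) (le_refl _) hge).one
    have himp : ∀ W, 1 / y ≤ W → W ≤ V → (∃ k : ℕ, 1 ≤ k ∧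
        ∀ n g d, k ≤ n → NetVal t y n g d → QP W q g d) → (∃ k : ℕ, 1 ≤ k ∧
        ∀ n g d, k ≤ n → NetVal t y n g d → QP (W - e) q g d) := by
      rintro W h1 h2 ⟨k, hk, hQ⟩
      exact ⟨2 * k, by omega, improve hp (hC W h1 h2) hV hk hQ⟩
    have hiter : ∀ j : ℕ, ∃ k : ℕ, 1 ≤ k ∧
        ∀ n g d, k ≤ n → NetVal t y n g d → QP (max (V - j * e) (1 / y - e)) q g d := by
      intro j
      induction j with
      | zero =>
        apply hmono V _ _ hcrude
        apply le_max_of_le_left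
        simp
      | succ j ih =>
        rcases lt_or_ge (V - j * e) (1 / y) with h3 | h3
        · have h4 : max (V - j * e) (1 / y - e) ≤ 1 / y := max_le h3.le (by linarith)
          have h5 := himp (1 / y) (le_refl _) hge (hmono _ _ h4 ih)
          exact hmono _ _ (le_max_right _ _) h5
        · have h4 : max (V - j * e) (1 / y - e) = V - j * e := max_eq_left (by linarith)
          rw [h4] at ih
          have h6 : V - j * e ≤ V := by
            have : 0 ≤ (j : ℝ) * e := by positivity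
            linarith
          have h5 := himp _ h3 h6 ih
          apply hmono _ _ _ h5
          apply le_max_of_le_left
          push_cast
          linarith
    obtain ⟨j, hj⟩ := exists_nat_gt ((V - (1 / y - e)) / e)
    rw [div_lt_iff₀ he] at hj
    refine ⟨1 / y - e, hone, by linarith, ?_⟩
    apply hmono _ _ _ (hiter j)
    apply max_le _ (le_refl _)
    linarith

/-- From the bound to positivity. -/
theorem final_pos (hp : Par t y q) {W g d v : ℝ} (hW1 : 1 ≤ W) (hW : W < 1 / y)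
    (h : T1P t y q g d) (hQ : QP W q g d) (hv1 : -(1 + t) ≤ v) (hv2 : v ≤ -(1 - y)) :
    0 < d - v / q * g := by
  have hq0 := hp.q0
  have hy0 := hp.y0
  have ht0 := hp.t0
  have e1 := hp.e1
  have hA := h.pos
  have hWy : y * W < 1 := by
    rw [lt_div_iff₀ hy0] at hW; linarith
  refine pos_of_mul (a := q) ?_ hq0.le
  have e : q * (d - v / q * g) = (g + q * d) - (1 + v) * g := by
    field_simp; ring
  rw [e]
  rcases le_total 0 g with hg | hg
  · have k1 : (1 + v) * g ≤ y * g := mul_le_mul_of_nonneg_right (by linarith) hg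
    have k2 : y * g ≤ y * (W * (g + q * d)) := mul_le_mul_of_nonneg_left hQ.a hy0.le
    have k3 : (y * W) * (g + q * d) < 1 * (g + q * d) := mul_lt_mul_of_pos_right hWy hA
    linarith
  · have hQb := hQ.b
    have hQb' : -g * (1 - (1 - q) * W) ≤ (W - 1) * (g + q * d) := by
      have := mul_le_mul_of_nonneg_left hQb hq0.le
      nlinarith
    have hWt : t * (W - 1) < 1 - (1 - q) * W := by
      have : W * (y * (1 + t)) < 1 * (1 + t) := by
        have := mul_lt_mul_of_pos_right hWy (by linarith : (0:ℝ) < 1 + t)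
        linarith
      rw [e1]; linarith
    have hc : 0 < 1 - (1 - q) * W := by
      have : 0 ≤ t * (W - 1) := mul_nonneg ht0 (by linarith)
      linarith
    have k1 : (1 + v) * g ≤ t * (-g) := by nlinarith
    have k2 : (1 - (1 - q) * W) * (t * (-g)) ≤ t * ((W - 1) * (g + q * d)) := by
      have := mul_le_mul_of_nonneg_left hQb' ht0
      linarith
    have k3 : (t * (W - 1)) * (g + q * d) < (1 - (1 - q) * W) * (g + q * d) :=
      mul_lt_mul_of_pos_right hWt hA
    have k4 : (1 - (1 - q) * W) * (t * (-g)) < (1 - (1 - q) * W) * (g + q * d) := by linarith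
    have k5 := lt_of_mul_lt_mul_left k4 hc.le
    linarith

end

end Pool.Agent.MP_58ca84_co
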