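import Pool.Agent.Lib.MP_58ca84_co.Rank

/-!
# The multivariate polynomial of a rank function and its recursions
-/

namespace Pool.Agent.MP_58ca84_co

open Finset

variable {α : Type*} [DecidableEq α]

/-- The multivariate Tutte polynomial (up to normalisation) of the rank function `r` on `W`. -/
noncomputable def zz (q : ℝ) (v : α → ℝ) (r : Finset α → ℤ) (W : Finset α) : ℝ :=
  ∑ A ∈ W.powerset, q ^ (-(r A)) * ∏ e ∈ A, v e

omit [DecidableEq α] in
theorem zz_congr {q : ℝ} {v : α → ℝ} {r s : Finset α → ℤ} {W : Finset α}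
    (h : ∀ A, A ⊆ W → r A = s A) : zz q v r W = zz q v s W := by
  unfold zz
  apply sum_congr rfl
  intro A hA
  rw [h A (mem_powerset.1 hA)]

/-- Sum over subsets of a disjoint union. -/
theorem sum_powerset_union {X Y : Finset α} (hXY : Disjoint X Y) (f : Finset α → ℝ) :
    ∑ P ∈ (X ∪ Y).powerset, f P = ∑ F ∈ X.powerset, ∑ A ∈ Y.powerset, f (F ∪ A) := by
  rw [← sum_product']
  symm
  apply sum_nbij' (fun p : Finset α × Finset α => p.1 ∪ p.2) (fun P => (P ∩ X, P ∩ Y))
  · rintro ⟨F, A⟩ h
    rw [mem_product, mem_powerset, mem_powerset] at h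
    exact mem_powerset.2 (union_subset_union h.1 h.2)
  · intro P hP
    rw [mem_product, mem_powerset, mem_powerset]
    exact ⟨inter_subset_right, inter_subset_right⟩
  · rintro ⟨F, A⟩ h
    rw [mem_product, mem_powerset, mem_powerset] at h
    obtain ⟨hF, hA⟩ := h
    simp only at hF hA
    have h1 : (F ∪ A) ∩ X = F := by
      ext x; simp only [mem_inter, mem_union]
      constructor
      · rintro ⟨h2 | h2, h3⟩
        · exact h2
        · exact absurd (hA h2) (disjoint_left.1 hXY h3)
      · intro h2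
        exact ⟨Or.inl h2, hF h2⟩
    have h4 : (F ∪ A) ∩ Y = A := by
      ext x; simp only [mem_inter, mem_union]
      constructor
      · rintro ⟨h2 | h2, h3⟩
        · exact absurd h3 (disjoint_left.1 hXY (hF h2))
        · exact h2
      · intro h2
        exact ⟨Or.inr h2, hA h2⟩
    simp only [h1, h4]
  · intro P hP
    rw [mem_powerset] at hP
    simp only
    rw [← inter_union_distrib_left, inter_eq_left.2 hP]
  · rintro ⟨F, A⟩ h
    rfl

/-- The product formula across a 2-separation. -/
theorem zz_union {q : ℝ} (hq : 0 < q) {v : α → ℝ} {R r1 r2 s1 s2 : Finset α → ℤ}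
    {X Y : Finset α} (hXY : Disjoint X Y)
    (h1 : ∀ F, F ⊆ X → r1 F - r2 F = 0 ∨ r1 F - r2 F = 1)
    (h2 : ∀ A, A ⊆ Y → s1 A - s2 A = 0 ∨ s1 A - s2 A = 1)
    (hR : ∀ F, F ⊆ X → ∀ A, A ⊆ Y → R (F ∪ A) = r1 F + s1 A - (r1 F - r2 F) * (s1 A - s2 A)) :
    (q - 1) * zz q v R (X ∪ Y) = (q - 1) * (zz q v r1 X * zz q v s1 Y) +
      (zz q v r2 X - zz q v r1 X) * (zz q v s2 Y - zz q v s1 Y) := by
  unfold zz
  rw [sum_powerset_union hXY, ← sum_sub_distrib, ← sum_sub_distrib, sum_mul_sum, sum_mul_sum,
    mul_sum, mul_sum, ← sum_add_distrib]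
  apply sum_congr rfl
  intro F hF
  rw [mul_sum, mul_sum, ← sum_add_distrib]
  apply sum_congr rfl
  intro A hA
  rw [mem_powerset] at hF hA
  have hd : Disjoint F A := disjoint_of_subset_left hF (disjoint_of_subset_right hA hXY)
  rw [hR F hF A hA, prod_union hd]
  have hq' : q ≠ 0 := hq.ne'
  rcases h1 F hF with c1 | c1
  · have e1 : r2 F = r1 F := by omega
    rw [c1, e1, zero_mul, sub_zero, neg_add, zpow_add₀ hq']
    ring
  · have e1 : r2 F = r1 F - 1 := by omega
    rcases h2 A hA with c2 | c2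
    · have e2 : s2 A = s1 A := by omega
      rw [c1, c2, e1, e2, mul_zero, sub_zero, neg_add, zpow_add₀ hq']
      ring
    · have e2 : s2 A = s1 A - 1 := by omega
      rw [c1, c2, e1, e2, mul_one]
      have e3 : -(r1 F + s1 A - 1) = -(r1 F) + -(s1 A) + 1 := by ring
      have e4 : -(r1 F - 1) = -(r1 F) + 1 := by ring
      have e5 : -(s1 A - 1) = -(s1 A) + 1 := by ring
      rw [e3, e4, e5, zpow_add₀ hq', zpow_add₀ hq', zpow_add₀ hq', zpow_add₀ hq', zpow_one]
      ring

theorem zz_union_prod {q : ℝ} (hq : 0 < q) (hq1 : q ≠ 1) {v : α → ℝ}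
    {R r1 s1 : Finset α → ℤ} {X Y : Finset α} (hXY : Disjoint X Y)
    (hR : ∀ F, F ⊆ X → ∀ A, A ⊆ Y → R (F ∪ A) = r1 F + s1 A) :
    zz q v R (X ∪ Y) = zz q v r1 X * zz q v s1 Y := by
  have h := zz_union hq (v := v) (R := R) (r1 := r1) (r2 := r1) (s1 := s1) (s2 := s1) hXY
    (fun F _ => Or.inl (sub_self _)) (fun A _ => Or.inl (sub_self _))
    (fun F hF A hA => by rw [hR F hF A hA]; ring)
  have hq' : q - 1 ≠ 0 := sub_ne_zero.2 hq1
  rw [sub_self, zero_mul, add_zero] at h
  exact mul_left_cancel₀ hq' h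

/-- `δ`: the normalised deletion value. -/
noncomputable def dd (q : ℝ) (v : α → ℝ) (r : Finset α → ℤ) (E : Finset α) (e : α) : ℝ :=
  (-1) ^ (r E) * zz q v r (E.erase e) / (1 - q)

/-- `γ`: the normalised contraction value. -/
noncomputable def gg (q : ℝ) (v : α → ℝ) (r : Finset α → ℤ) (E : Finset α) (e : α) : ℝ :=
  -((-1) ^ (r E)) * zz q v (con r {e}) (E.erase e) / (1 - q)

/-- The values `(γ, δ)` of networks of a given size, with edge weights in
`[-(1+t), -(1-y)]`, where `q = (1+t)(1-y)`. -/
inductive NetVal (t y : ℝ) : ℕ → ℝ → ℝ → Prop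
  | edge (v : ℝ) (h1 : -(1 + t) ≤ v) (h2 : v ≤ -(1 - y)) :
      NetVal t y 1 ((1 + v) / (1 - (1 + t) * (1 - y)))
        (-(1 + v / ((1 + t) * (1 - y))) / (1 - (1 + t) * (1 - y)))
  | par (n m : ℕ) (g1 d1 g2 d2 g d : ℝ) (h1 : NetVal t y n g1 d1) (h2 : NetVal t y m g2 d2)
      (hg : g = (1 - (1 + t) * (1 - y)) * (g1 * g2))
      (hA : g + (1 + t) * (1 - y) * d =
        (g1 + (1 + t) * (1 - y) * d1) * (g2 + (1 + t) * (1 - y) * d2)) :
      NetVal t y (n + m) g d
  | ser (n m : ℕ) (g1 d1 g2 d2 g d : ℝ) (h1 : NetVal t y n g1 d1) (h2 : NetVal t y m g2 d2)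
      (hd : d = (1 - (1 + t) * (1 - y)) * (d1 * d2))
      (hB : g + d = (g1 + d1) * (g2 + d2)) :
      NetVal t y (n + m) g d
  | mix (n m : ℕ) (gX dX g1 d1 g2 d2 g d : ℝ) (hX : NetVal t y n gX dX)
      (h1 : NetVal t y m g1 d1) (h2 : NetVal t y m g2 d2)
      (h3 : NetVal t y m d2 d1) (h4 : NetVal t y m g2 g1)
      (hg : g = (gX + (1 + t) * (1 - y) * dX) * g1 + (gX + dX) * g2)
      (hd : d = (gX + (1 + t) * (1 - y) * dX) * d1 + (gX + dX) * d2) :
      NetVal t y (n + m) g d

omit [DecidableEq α] in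
theorem sum_powerset_single (e : α) (f : Finset α → ℝ) :
    ∑ A ∈ ({e} : Finset α).powerset, f A = f ∅ + f {e} := by
  classical
  have : ({e} : Finset α).powerset = {∅, {e}} := by
    ext A; simp only [mem_powerset, mem_insert, mem_singleton, subset_singleton_iff]
  rw [this, sum_pair (singleton_ne_empty e).symm]

theorem con_comm_single (r : Finset α → ℤ) (X : Finset α) (e : α) (A : Finset α) :
    con (con r {e}) X A = con (con r X) {e} A := by
  simp only [con]
  have h1 : A ∪ X ∪ {e} = A ∪ {e} ∪ X := by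
    ext x; simp only [mem_union]; tauto
  have h2 : X ∪ {e} = {e} ∪ X := union_comm _ _
  rw [h1, h2]; ring

theorem gg_net (q : ℝ) (v : α → ℝ) {r : Finset α → ℤ} {E X : Finset α} {e0 : α}
    (hX : X ⊆ E) (he0 : e0 ∉ X) (hsep : r X + r (E \ X) = r E + 1) :
    gg q v (net r E X e0) (insert e0 X) e0 =
      -((-1) ^ (r X)) * zz q v (con r (E \ X)) X / (1 - q) := by
  unfold gg
  have h1 : net r E X e0 (insert e0 X) = r X := by
    rw [net_mem r (mem_insert_self _ _)]
    have : insert e0 X ∩ X ∪ (E \ X) = E := by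
      rw [inter_eq_right.2 (subset_insert _ _)]
      exact union_sdiff_of_subset hX
    rw [this]; omega
  rw [h1, erase_insert he0]
  congr 2
  apply zz_congr
  intro A hA
  simp only [con]
  rw [net_mem r (mem_union_right A (mem_singleton_self e0)), net_mem r (mem_singleton_self e0)]
  have h2 : (A ∪ {e0}) ∩ X = A := by
    ext x; simp only [mem_inter, mem_union, mem_singleton]
    constructor
    · rintro ⟨h3 | h3, h4⟩
      · exact h3
      · exact absurd (h3 ▸ h4) he0
    · intro h3
      exact ⟨Or.inl h3, hA h3⟩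
  have h3 : ({e0} : Finset α) ∩ X = ∅ := singleton_inter_of_notMem he0
  rw [h2, h3, empty_union]; ring

theorem dd_net (q : ℝ) (v : α → ℝ) {r : Finset α → ℤ} {E X : Finset α} {e0 : α}
    (hX : X ⊆ E) (he0 : e0 ∉ X) (hsep : r X + r (E \ X) = r E + 1) :
    dd q v (net r E X e0) (insert e0 X) e0 =
      (-1) ^ (r X) * zz q v r X / (1 - q) := by
  unfold dd
  have h1 : net r E X e0 (insert e0 X) = r X := by
    rw [net_mem r (mem_insert_self _ _)]
    have : insert e0 X ∩ X ∪ (E \ X) = E := by
      rw [inter_eq_right.2 (subset_insert _ _)]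
      exact union_sdiff_of_subset hX
    rw [this]; omega
  rw [h1, erase_insert he0]
  congr 2
  apply zz_congr
  intro A hA
  rw [net_notMem r (fun h => he0 (hA h)), inter_eq_left.2 hA]

theorem neg_one_zpow_sq (n : ℤ) : ((-1 : ℝ) ^ n) * ((-1 : ℝ) ^ n) = 1 := by
  rw [← zpow_add₀ (by norm_num : (-1 : ℝ) ≠ 0)]
  rw [← two_mul, zpow_mul]
  norm_num

theorem neg_one_zpow_sub_one (n : ℤ) : ((-1 : ℝ) ^ (n - 1)) = -((-1 : ℝ) ^ n) := by
  rw [zpow_sub₀ (by norm_num : (-1 : ℝ) ≠ 0), zpow_one]
  ring

/-- The combinatorial half: all networks of connected matroids are generated by the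
constructors of `NetVal`. -/
theorem netVal_of_conn {t y : ℝ} (hq : 0 < (1 + t) * (1 - y)) (hq1 : (1 + t) * (1 - y) ≠ 1)
    (v : α → ℝ) : ∀ n : ℕ, ∀ (r : Finset α → ℤ) (E : Finset α) (e0 : α), IsRank r → Conn r E →
      e0 ∈ E → E.card = n + 1 → 1 ≤ n →
      (∀ e ∈ E.erase e0, -(1 + t) ≤ v e ∧ v e ≤ -(1 - y)) →
      NetVal t y n (gg ((1 + t) * (1 - y)) v r E e0) (dd ((1 + t) * (1 - y)) v r E e0) := by
  intro n
  induction n using Nat.strong_induction_on with
  | _ n ih =>
  intro r E e0 hr hc he0 hcard hn hv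
  by_cases hn1 : n = 1
  · subst hn1
    have hc1 : (E.erase e0).card = 1 := by
      rw [card_erase_of_mem he0, hcard]
    obtain ⟨e, he⟩ := card_eq_one.1 hc1
    have heE : e ∈ E := mem_of_mem_erase (he ▸ mem_singleton_self e)
    obtain ⟨h1, h1'⟩ := hc.elem hr (by omega) he0
    obtain ⟨h2, h2'⟩ := hc.elem hr (by omega) heE
    rw [he, h2] at h1'
    have hE : {e} ∪ {e0} = E := by
      rw [← he]
      ext x; simp only [mem_union, mem_erase, mem_singleton]
      constructor
      · rintro (h3 | h3)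
        · exact h3.2
        · exact h3 ▸ he0
      · intro hx
        by_cases h3 : x = e0
        · exact Or.inr h3
        · exact Or.inl ⟨h3, hx⟩
    have hdd : dd ((1 + t) * (1 - y)) v r E e0 =
        -(1 + v e / ((1 + t) * (1 - y))) / (1 - (1 + t) * (1 - y)) := by
      unfold dd zz
      rw [he, sum_powerset_single, hr.empty, h2, ← h1']
      simp only [prod_empty, prod_singleton, neg_zero, zpow_zero, mul_one, zpow_one, zpow_neg]
      rw [div_eq_mul_inv (v e)]
      ring
    have hgg : gg ((1 + t) * (1 - y)) v r E e0 =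
        (1 + v e) / (1 - (1 + t) * (1 - y)) := by
      unfold gg zz
      rw [he, sum_powerset_single, ← h1']
      simp only [con]
      rw [empty_union, hE, h1, ← h1']
      simp
    rw [hdd, hgg]
    have := hv e (he ▸ mem_singleton_self e)
    exact NetVal.edge (v e) this.1 this.2
  -- the general case
  obtain ⟨X, hXsub, hXn, hXne, hsep, hcases⟩ := decomp hr hc he0 (by omega)
  have hXE : X ⊆ E := hXsub.trans (erase_subset _ _)
  have he0X : e0 ∉ X := fun h => (mem_erase.1 (hXsub h)).1 rfl
  have hXneE : X ≠ E := fun h => he0X (h ▸ he0)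
  obtain ⟨re0, rEe0⟩ := hc.elem hr (by omega) he0
  set Y := E \ X with hY
  have he0Y : e0 ∈ Y := mem_sdiff.2 ⟨he0, he0X⟩
  have hYE : Y ⊆ E := sdiff_subset
  have hYX : E \ Y = X := sdiff_sdiff_cancel hXE
  have hcardX : X.card < n := by
    have h1 : X ⊂ E.erase e0 := hXsub.ssubset_of_ne hXne
    have := card_lt_card h1
    rw [card_erase_of_mem he0, hcard] at this
    omega
  have hcardX1 : 1 ≤ X.card := hXn.card_pos
  have hcardY : Y.card = (n - X.card) + 1 := by
    rw [hY, card_sdiff_of_subset hXE, hcard]; omega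
  -- the network `X`
  have NX : NetVal t y X.card
      (-((-1) ^ (r X)) * zz ((1 + t) * (1 - y)) v (con r Y) X / (1 - (1 + t) * (1 - y)))
      ((-1) ^ (r X) * zz ((1 + t) * (1 - y)) v r X / (1 - (1 + t) * (1 - y))) := by
    rw [← gg_net _ v hXE he0X hsep, ← dd_net _ v hXE he0X hsep]
    apply ih X.card hcardX _ _ _ (hr.net hXE he0X hsep) (conn_net hc hXE hXneE he0X)
      (mem_insert_self _ _) (card_insert_of_notMem he0X) hcardX1
    intro e he
    rw [erase_insert he0X] at he
    exact hv e (hXsub he)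
  have hvY : ∀ e ∈ Y.erase e0, -(1 + t) ≤ v e ∧ v e ≤ -(1 - y) := by
    intro e he
    exact hv e (erase_subset_erase e0 hYE he)
  have hYer : (E.erase e0) \ (Y.erase e0) = X := by
    ext x; simp only [hY, mem_sdiff, mem_erase]
    constructor
    · rintro ⟨⟨h1, h2⟩, h3⟩
      by_contra h4
      exact h3 ⟨h1, h2, h4⟩
    · intro hx
      exact ⟨mem_erase.1 (hXsub hx), fun h5 => h5.2.2 hx⟩
  have hEer : E.erase e0 = X ∪ Y.erase e0 := by
    rw [hY]; ext x; simp only [mem_union, mem_erase, mem_sdiff]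
    constructor
    · rintro ⟨h4, h5⟩
      by_cases h6 : x ∈ X
      · exact Or.inl h6
      · exact Or.inr ⟨h4, h5, h6⟩
    · rintro (h4 | h4)
      · exact mem_erase.1 (hXsub h4)
      · exact ⟨h4.1, h4.2.1⟩
  have hdisj : Disjoint X (Y.erase e0) := by
    rw [disjoint_left]
    intro x hx hx2
    exact (mem_sdiff.1 (mem_of_mem_erase hx2)).2 hx
  have hYY : Y ∪ X = E := by rw [hY]; exact sdiff_union_of_subset hXE
  have hsize : X.card + (n - X.card) = n := by omega
  have hrE : r E = r X + r Y - 1 := by omega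
  have heps : ((-1 : ℝ) ^ (r E)) = -((-1) ^ (r X) * (-1) ^ (r Y)) := by
    rw [hrE, neg_one_zpow_sub_one, zpow_add₀ (by norm_num : (-1 : ℝ) ≠ 0)]
  have hq1' : (1 - (1 + t) * (1 - y)) ≠ 0 := fun h => hq1 (by linarith)
  have hphi : ∀ F, F ⊆ X → r F - con r Y F = 0 ∨ r F - con r Y F = 1 := by
    intro F hF
    have := phi_bounds hr hXE hsep hF
    rw [← hY] at this
    simp only [con]
    omega
  have hsepY : r Y + r (E \ Y) = r E + 1 := by rw [hYX]; omega
  have hpsi : ∀ A, A ⊆ Y → r A - con r X A = 0 ∨ r A - con r X A = 1 := by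
    intro A hA
    have := phi_bounds hr hYE hsepY hA
    rw [hYX] at this
    simp only [con]
    omega
  have hsr : ∀ F, F ⊆ X → ∀ A, A ⊆ Y →
      r (F ∪ A) = r F + r A - (r F - con r Y F) * (r A - con r X A) :=
    fun F hF A hA => sep_rank hr hXE hsep hF hA
  have hins : ∀ A : Finset α, A ∪ {e0} = insert e0 A := by
    intro A; ext x; simp
  have hinsX : ({e0} : Finset α) ∪ X = insert e0 X := by
    ext x; simp
  have hq1m : (1 + t) * (1 - y) - 1 ≠ 0 := fun h => hq1 (by linarith)
  have hinsY : ∀ A, A ⊆ Y.erase e0 → insert e0 A ⊆ Y := by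
    intro A hA
    exact insert_subset he0Y (hA.trans (erase_subset _ _))
  have heraseY : ∀ A, A ⊆ Y.erase e0 → A ⊆ Y := fun A hA => hA.trans (erase_subset _ _)
  -- general formula for the deletion
  have hDgen : ((1 + t) * (1 - y) - 1) * zz ((1 + t) * (1 - y)) v r (E.erase e0) =
      ((1 + t) * (1 - y) - 1) * (zz ((1 + t) * (1 - y)) v r X *
        zz ((1 + t) * (1 - y)) v r (Y.erase e0)) +
      (zz ((1 + t) * (1 - y)) v (con r Y) X - zz ((1 + t) * (1 - y)) v r X) *
      (zz ((1 + t) * (1 - y)) v (con r X) (Y.erase e0) -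
        zz ((1 + t) * (1 - y)) v r (Y.erase e0)) := by
    rw [hEer]
    exact zz_union hq hdisj hphi (fun A hA => hpsi A (heraseY A hA))
      (fun F hF A hA => hsr F hF A (heraseY A hA))
  -- general formula for the contraction
  have hCgen : r (insert e0 X) = r X + 1 →
      ((1 + t) * (1 - y) - 1) * zz ((1 + t) * (1 - y)) v (con r {e0}) (E.erase e0) =
      ((1 + t) * (1 - y) - 1) * (zz ((1 + t) * (1 - y)) v r X *
        zz ((1 + t) * (1 - y)) v (con r {e0}) (Y.erase e0)) +
      (zz ((1 + t) * (1 - y)) v (con r Y) X - zz ((1 + t) * (1 - y)) v r X) *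
      (zz ((1 + t) * (1 - y)) v (con (con r X) {e0}) (Y.erase e0) -
        zz ((1 + t) * (1 - y)) v (con r {e0}) (Y.erase e0)) := by
    intro hP'
    have hs : ∀ A, con r {e0} A - con (con r X) {e0} A =
        r (insert e0 A) - con r X (insert e0 A) := by
      intro A
      simp only [con]
      rw [hins, hinsX, re0]
      omega
    rw [hEer]
    apply zz_union hq hdisj hphi
    · intro A hA
      rw [hs]
      exact hpsi _ (hinsY A hA)
    · intro F hF A hA
      rw [hs]
      have h1 := hsr F hF (insert e0 A) (hinsY A hA)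
      have h2 : F ∪ insert e0 A = insert e0 (F ∪ A) := by
        ext x; simp only [mem_union, mem_insert]; tauto
      rw [h2] at h1
      have h3 : con r {e0} (F ∪ A) = r (insert e0 (F ∪ A)) - 1 := by
        simp only [con]; rw [hins, re0]
      have h4 : con r {e0} A = r (insert e0 A) - 1 := by
        simp only [con]; rw [hins, re0]
      rw [h3, h4, h1]; ring
  have hconXY : con r X Y = r Y - 1 := by
    simp only [con]; rw [hYY]; omega
  have epsX := neg_one_zpow_sq (r X)
  have epsY := neg_one_zpow_sq (r Y)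
  rcases hcases with ⟨hP, hcY⟩ | ⟨hP', hS, hcY⟩ | ⟨hP', hnS, hcY1, hcY2, hcY3, hcY4⟩
  · -- parallel case
    have N1 := ih (n - X.card) (by omega) r Y e0 hr hcY he0Y hcardY (by omega) hvY
    have hps1 : ∀ A, A ⊆ Y.erase e0 → r (insert e0 A ∪ X) = r (insert e0 A) + r X - 1 := by
      intro A hA
      have h1 := hr.submod (insert e0 A) (insert e0 X)
      have h2 : insert e0 A ∪ insert e0 X = insert e0 A ∪ X := by
        ext x; simp only [mem_union, mem_insert]; tauto
      have h3 : ({e0} : Finset α) ⊆ insert e0 A ∩ insert e0 X := by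
        intro x hx
        rw [mem_singleton] at hx
        subst hx
        exact mem_inter.2 ⟨mem_insert_self _ _, mem_insert_self _ _⟩
      have h4 := hr.mono _ _ h3
      rw [h2] at h1
      have h5 := hpsi (insert e0 A) (hinsY A hA)
      simp only [con] at h5
      omega
    have hC : zz ((1 + t) * (1 - y)) v (con r {e0}) (E.erase e0) =
        zz ((1 + t) * (1 - y)) v (con r Y) X *
          zz ((1 + t) * (1 - y)) v (con r {e0}) (Y.erase e0) := by
      rw [hEer]
      apply zz_union_prod hq hq1 hdisj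
      intro F hF A hA
      have h1 := hsr F hF (insert e0 A) (hinsY A hA)
      have h2 : F ∪ insert e0 A = insert e0 (F ∪ A) := by
        ext x; simp only [mem_union, mem_insert]; tauto
      rw [h2] at h1
      have h5 : r (insert e0 A) - con r X (insert e0 A) = 1 := by
        simp only [con]
        have := hps1 A hA
        omega
      rw [h5] at h1
      have h3 : con r {e0} (F ∪ A) = r (insert e0 (F ∪ A)) - 1 := by
        simp only [con]; rw [hins, re0]
      have h4 : con r {e0} A = r (insert e0 A) - 1 := by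
        simp only [con]; rw [hins, re0]
      rw [h3, h4, h1]; ring
    have hD2 : zz ((1 + t) * (1 - y)) v (con r X) (Y.erase e0) =
        zz ((1 + t) * (1 - y)) v (con r {e0}) (Y.erase e0) := by
      apply zz_congr
      intro A hA
      have h1 := hps1 A hA
      have h2 := hr.submod (A ∪ X) (insert e0 X)
      have h3 : A ∪ X ∪ insert e0 X = insert e0 A ∪ X := by
        ext x; simp only [mem_union, mem_insert]; tauto
      have h4 : X ⊆ (A ∪ X) ∩ insert e0 X := by
        intro x hx
        exact mem_inter.2 ⟨mem_union_right _ hx, mem_insert_of_mem hx⟩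
      have h5 := hr.mono _ _ h4
      have h6 : A ∪ X ⊆ insert e0 A ∪ X := union_subset_union (subset_insert _ _) (Subset.refl _)
      have h7 := hr.mono _ _ h6
      rw [h3] at h2
      simp only [con]
      rw [hins, re0]
      omega
    rw [← hsize]
    refine NetVal.par _ _ _ _ _ _ _ _ NX N1 ?_ ?_
    · unfold gg
      rw [hC, heps]
      field_simp
    · rw [hD2] at hDgen
      unfold gg dd
      rw [hC, heps]
      have hDD : zz ((1 + t) * (1 - y)) v r (E.erase e0) =
        (((1 + t) * (1 - y) - 1) * (zz ((1 + t) * (1 - y)) v r X *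
          zz ((1 + t) * (1 - y)) v r (Y.erase e0)) +
        (zz ((1 + t) * (1 - y)) v (con r Y) X - zz ((1 + t) * (1 - y)) v r X) *
        (zz ((1 + t) * (1 - y)) v (con r {e0}) (Y.erase e0) -
          zz ((1 + t) * (1 - y)) v r (Y.erase e0))) / ((1 + t) * (1 - y) - 1) := by
        rw [eq_div_iff hq1m, ← hDgen]; ring
      rw [hDD]
      field_simp
      ring
  · -- series case
    have N2 := ih (n - X.card) (by omega) (con r X) Y e0 (hr.con X) hcY he0Y hcardY (by omega) hvY
    have hps0 : ∀ A, A ⊆ Y.erase e0 → r (A ∪ X) = r A + r X := by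
      intro A hA
      have h1 := hr.submod (A ∪ X) (Y.erase e0)
      have h2 : A ∪ X ∪ Y.erase e0 = E.erase e0 := by
        rw [hEer]; ext x; simp only [mem_union]
        constructor
        · rintro ((h3 | h3) | h3)
          · exact Or.inr (hA h3)
          · exact Or.inl h3
          · exact Or.inr h3
        · rintro (h3 | h3)
          · exact Or.inl (Or.inr h3)
          · exact Or.inr h3
      have h3 : A ⊆ (A ∪ X) ∩ Y.erase e0 := by
        intro x hx
        exact mem_inter.2 ⟨mem_union_left _ hx, hA hx⟩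
      have h4 := hr.mono _ _ h3
      rw [h2] at h1
      have h5 := hr.subadd A X
      omega
    have hD : zz ((1 + t) * (1 - y)) v r (E.erase e0) =
        zz ((1 + t) * (1 - y)) v r X *
          zz ((1 + t) * (1 - y)) v (con r X) (Y.erase e0) := by
      rw [hEer]
      apply zz_union_prod hq hq1 hdisj
      intro F hF A hA
      have h1 := hsr F hF A (heraseY A hA)
      have h2 := hps0 A hA
      have h3 : con r X A = r A := by
        simp only [con]; omega
      rw [h3] at h1 ⊢
      rw [h1]; ring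
    have hC1 : zz ((1 + t) * (1 - y)) v (con r {e0}) (Y.erase e0) =
        zz ((1 + t) * (1 - y)) v (con r X) (Y.erase e0) := by
      apply zz_congr
      intro A hA
      have h1 := hps0 A hA
      have h2 := hr.submod (insert e0 A) (Y.erase e0)
      have h3 : insert e0 A ∪ Y.erase e0 = Y := by
        ext x; simp only [mem_union, mem_insert, mem_erase]
        constructor
        · rintro ((h3 | h3) | h3)
          · exact h3 ▸ he0Y
          · exact heraseY A hA h3
          · exact h3.2
        · intro h3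
          by_cases h4 : x = e0
          · exact Or.inl (Or.inl h4)
          · exact Or.inr ⟨h4, h3⟩
      have h4 : A ⊆ insert e0 A ∩ Y.erase e0 := by
        intro x hx
        exact mem_inter.2 ⟨mem_insert_of_mem hx, hA hx⟩
      have h5 := hr.mono _ _ h4
      rw [h3] at h2
      have h6 := hr.insert_le A e0
      simp only [con]
      rw [hins, re0]
      omega
    have hC := hCgen hP'
    rw [hC1] at hC
    have hCC : zz ((1 + t) * (1 - y)) v (con r {e0}) (E.erase e0) =
      (((1 + t) * (1 - y) - 1) * (zz ((1 + t) * (1 - y)) v r X *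
        zz ((1 + t) * (1 - y)) v (con r X) (Y.erase e0)) +
      (zz ((1 + t) * (1 - y)) v (con r Y) X - zz ((1 + t) * (1 - y)) v r X) *
      (zz ((1 + t) * (1 - y)) v (con (con r X) {e0}) (Y.erase e0) -
        zz ((1 + t) * (1 - y)) v (con r X) (Y.erase e0))) / ((1 + t) * (1 - y) - 1) := by
      rw [eq_div_iff hq1m, ← hC]; ring
    rw [← hsize]
    refine NetVal.ser _ _ _ _ _ _ _ _ NX N2 ?_ ?_
    · unfold dd
      rw [hD, heps, hconXY, neg_one_zpow_sub_one]
      field_simp
    · unfold gg dd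
      rw [hD, hCC, heps, hconXY, neg_one_zpow_sub_one]
      field_simp
      ring
  · -- the remaining case
    have N1 := ih (n - X.card) (by omega) r Y e0 hr hcY1 he0Y hcardY (by omega) hvY
    have N2 := ih (n - X.card) (by omega) (con r X) Y e0 (hr.con X) hcY2 he0Y hcardY (by omega) hvY
    have he0Ye : e0 ∉ Y.erase e0 := fun h => (mem_erase.1 h).1 rfl
    have hYeE : Y.erase e0 ⊆ E.erase e0 := erase_subset_erase e0 hYE
    have hsep3 : r (Y.erase e0) + r ((E.erase e0) \ (Y.erase e0)) = r (E.erase e0) + 1 := by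
      rw [hYer, rEe0, hnS]; omega
    have hins2 : insert e0 (Y.erase e0) = Y := insert_erase he0Y
    have hEe0 : E.erase e0 ∪ {e0} = E := by rw [hins, insert_erase he0]
    have hsep4 : con r {e0} (Y.erase e0) + con r {e0} ((E.erase e0) \ (Y.erase e0)) =
        con r {e0} (E.erase e0) + 1 := by
      rw [hYer]
      simp only [con]
      rw [hins, hins2, hEe0, hins, hP', re0]; omega
    have N3 := ih (n - X.card) (by omega) (net r (E.erase e0) (Y.erase e0) e0) Y e0
      (hr.net hYeE he0Ye hsep3) hcY3 he0Y hcardY (by omega) hvY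
    have N4 := ih (n - X.card) (by omega) (net (con r {e0}) (E.erase e0) (Y.erase e0) e0) Y e0
      ((hr.con {e0}).net hYeE he0Ye hsep4) hcY4 he0Y hcardY (by omega) hvY
    have g3 := gg_net ((1 + t) * (1 - y)) v hYeE he0Ye hsep3
    have d3 := dd_net ((1 + t) * (1 - y)) v hYeE he0Ye hsep3
    have g4 := gg_net ((1 + t) * (1 - y)) v hYeE he0Ye hsep4
    have d4 := dd_net ((1 + t) * (1 - y)) v hYeE he0Ye hsep4
    rw [hins2, hYer] at g3 g4
    rw [hins2] at d3 d4
    have hcY : con r {e0} (Y.erase e0) = r Y - 1 := by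
      simp only [con]; rw [hins, hins2, re0]
    rw [hcY, neg_one_zpow_sub_one] at g4 d4
    rw [hnS] at g3 d3
    have hcc : zz ((1 + t) * (1 - y)) v (con (con r {e0}) X) (Y.erase e0) =
        zz ((1 + t) * (1 - y)) v (con (con r X) {e0}) (Y.erase e0) :=
      zz_congr (fun A _ => con_comm_single r X e0 A)
    rw [hcc] at g4
    have e3 : gg ((1 + t) * (1 - y)) v (net r (E.erase e0) (Y.erase e0) e0) Y e0 =
        dd ((1 + t) * (1 - y)) v (con r X) Y e0 := by
      rw [g3]; unfold dd
      rw [hconXY, neg_one_zpow_sub_one]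
    have e3' : dd ((1 + t) * (1 - y)) v (net r (E.erase e0) (Y.erase e0) e0) Y e0 =
        dd ((1 + t) * (1 - y)) v r Y e0 := by
      rw [d3]; rfl
    have e4 : gg ((1 + t) * (1 - y)) v (net (con r {e0}) (E.erase e0) (Y.erase e0) e0) Y e0 =
        gg ((1 + t) * (1 - y)) v (con r X) Y e0 := by
      rw [g4]; unfold gg
      rw [hconXY, neg_one_zpow_sub_one]
    have e4' : dd ((1 + t) * (1 - y)) v (net (con r {e0}) (E.erase e0) (Y.erase e0) e0) Y e0 =
        gg ((1 + t) * (1 - y)) v r Y e0 := by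
      rw [d4]; rfl
    rw [e3, e3'] at N3
    rw [e4, e4'] at N4
    have hC := hCgen hP'
    have hCC : zz ((1 + t) * (1 - y)) v (con r {e0}) (E.erase e0) =
      (((1 + t) * (1 - y) - 1) * (zz ((1 + t) * (1 - y)) v r X *
        zz ((1 + t) * (1 - y)) v (con r {e0}) (Y.erase e0)) +
      (zz ((1 + t) * (1 - y)) v (con r Y) X - zz ((1 + t) * (1 - y)) v r X) *
      (zz ((1 + t) * (1 - y)) v (con (con r X) {e0}) (Y.erase e0) -
        zz ((1 + t) * (1 - y)) v (con r {e0}) (Y.erase e0))) / ((1 + t) * (1 - y) - 1) := by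
      rw [eq_div_iff hq1m, ← hC]; ring
    have hDD : zz ((1 + t) * (1 - y)) v r (E.erase e0) =
      (((1 + t) * (1 - y) - 1) * (zz ((1 + t) * (1 - y)) v r X *
        zz ((1 + t) * (1 - y)) v r (Y.erase e0)) +
      (zz ((1 + t) * (1 - y)) v (con r Y) X - zz ((1 + t) * (1 - y)) v r X) *
      (zz ((1 + t) * (1 - y)) v (con r X) (Y.erase e0) -
        zz ((1 + t) * (1 - y)) v r (Y.erase e0))) / ((1 + t) * (1 - y) - 1) := by
      rw [eq_div_iff hq1m, ← hDgen]; ring
    rw [← hsize]
    refine NetVal.mix _ _ _ _ _ _ _ _ _ _ NX N1 N2 N3 N4 ?_ ?_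
    · unfold gg
      rw [hCC, heps, hconXY, neg_one_zpow_sub_one]
      field_simp
      ring
    · unfold dd
      rw [hDD, heps, hconXY, neg_one_zpow_sub_one]
      field_simp
      ring

end Pool.Agent.MP_58ca84_co
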