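import Mathlib

/-!
# Rank functions, contraction, connectivity, and a decomposition lemma

A matroid rank function is treated as an integer valued function on all finite subsets of a type.
-/

namespace Pool.Agent.MP_58ca84_co

open Finset

variable {α : Type*} [DecidableEq α]

/-- An integer valued matroid rank function, defined on all finite sets. -/
structure IsRank (r : Finset α → ℤ) : Prop where
  empty : r ∅ = 0
  mono : ∀ A B, A ⊆ B → r A ≤ r B
  single : ∀ e, r {e} ≤ 1
  submod : ∀ A B, r (A ∪ B) + r (A ∩ B) ≤ r A + r B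

/-- The rank function of the contraction of `C`. -/
def con (r : Finset α → ℤ) (C : Finset α) : Finset α → ℤ := fun A => r (A ∪ C) - r C

/-- Connectivity of the matroid on `E` with rank function `r`. -/
def Conn (r : Finset α → ℤ) (E : Finset α) : Prop :=
  ∀ X, X ⊆ E → X.Nonempty → X ≠ E → r E + 1 ≤ r X + r (E \ X)

/-- The matroid on `insert p X` obtained from the matroid on `E` by replacing `E \ X` by the
single element `p` (when `X` is 2-separating). -/
def net (r : Finset α → ℤ) (E X : Finset α) (p : α) : Finset α → ℤ :=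
  fun A => if p ∈ A then r ((A ∩ X) ∪ (E \ X)) - r (E \ X) + 1 else r (A ∩ X)

theorem IsRank.nonneg {r : Finset α → ℤ} (h : IsRank r) (A : Finset α) : 0 ≤ r A := by
  have := h.mono ∅ A (empty_subset _)
  rw [h.empty] at this
  exact this

theorem IsRank.subadd {r : Finset α → ℤ} (h : IsRank r) (A B : Finset α) :
    r (A ∪ B) ≤ r A + r B := by
  have := h.submod A B
  have := h.nonneg (A ∩ B)
  omega

theorem IsRank.union_single {r : Finset α → ℤ} (h : IsRank r) (A : Finset α) (e : α) :
    r (A ∪ {e}) ≤ r A + 1 := by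
  have := h.subadd A {e}
  have := h.single e
  omega

theorem IsRank.insert_le {r : Finset α → ℤ} (h : IsRank r) (A : Finset α) (e : α) :
    r (insert e A) ≤ r A + 1 := by
  have h1 := h.union_single A e
  have : insert e A = A ∪ {e} := by
    ext x; simp
  rw [this]; exact h1

theorem IsRank.con {r : Finset α → ℤ} (h : IsRank r) (C : Finset α) : IsRank (con r C) where
  empty := by simp [Pool.Agent.MP_58ca84_co.con]
  mono := by
    intro A B hAB
    have := h.mono (A ∪ C) (B ∪ C) (union_subset_union hAB (Subset.refl _))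
    simp only [Pool.Agent.MP_58ca84_co.con]; omega
  single := by
    intro e
    have := h.union_single C e
    have h2 : ({e} : Finset α) ∪ C = C ∪ {e} := union_comm _ _
    simp only [Pool.Agent.MP_58ca84_co.con]; rw [h2]; omega
  submod := by
    intro A B
    have h1 := h.submod (A ∪ C) (B ∪ C)
    have h2 : (A ∪ C) ∪ (B ∪ C) = (A ∪ B) ∪ C := by
      ext x; simp only [mem_union]; tauto
    have h3 : (A ∪ C) ∩ (B ∪ C) = (A ∩ B) ∪ C := by
      ext x; simp only [mem_union, mem_inter]; tauto
    rw [h2, h3] at h1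
    simp only [Pool.Agent.MP_58ca84_co.con]; omega

/-- The basic bounds for `φ F = r F + r Y - r (F ∪ Y)`. -/
theorem phi_bounds {r : Finset α → ℤ} (h : IsRank r) {E X : Finset α} (hX : X ⊆ E)
    (hsep : r X + r (E \ X) = r E + 1) {F : Finset α} (hF : F ⊆ X) :
    0 ≤ r F + r (E \ X) - r (F ∪ (E \ X)) ∧ r F + r (E \ X) - r (F ∪ (E \ X)) ≤ 1 := by
  have h1 := h.subadd F (E \ X)
  have h2 := h.submod (F ∪ (E \ X)) X
  have h3 : (F ∪ (E \ X)) ∪ X = E := by
    ext x; simp only [mem_union, mem_sdiff]
    constructor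
    · rintro ((hx | hx) | hx)
      · exact hX (hF hx)
      · exact hx.1
      · exact hX hx
    · intro hx
      by_cases hxx : x ∈ X
      · exact Or.inr hxx
      · exact Or.inl (Or.inr ⟨hx, hxx⟩)
  have h4 : (F ∪ (E \ X)) ∩ X = F := by
    ext x; simp only [mem_union, mem_sdiff, mem_inter]
    constructor
    · rintro ⟨hx | hx, hx2⟩
      · exact hx
      · exact absurd hx2 hx.2
    · intro hx
      exact ⟨Or.inl hx, hF hx⟩
  rw [h3, h4] at h2
  constructor <;> omega

/-- The rank formula across a 2-separation. -/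
theorem sep_rank {r : Finset α → ℤ} (h : IsRank r) {E X : Finset α} (hX : X ⊆ E)
    (hsep : r X + r (E \ X) = r E + 1) {F A : Finset α} (hF : F ⊆ X) (hA : A ⊆ E \ X) :
    r (F ∪ A) = r F + r A - (r F - con r (E \ X) F) * (r A - con r X A) := by
  have hYX : E \ (E \ X) = X := by
    ext x; simp only [mem_sdiff]
    constructor
    · rintro ⟨h1, h2⟩
      by_contra h3
      exact h2 ⟨h1, h3⟩
    · intro hx
      exact ⟨hX hx, fun h2 => h2.2 hx⟩
  have b1 := phi_bounds h hX hsep hF
  have hsep' : r (E \ X) + r (E \ (E \ X)) = r E + 1 := by rw [hYX]; omega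
  have b2 := phi_bounds h (sdiff_subset : E \ X ⊆ E) hsep' hA
  rw [hYX] at b2
  have s1 := h.subadd F A
  have s2 := h.submod (E \ X) (F ∪ A)
  have e1 : (E \ X) ∪ (F ∪ A) = F ∪ (E \ X) := by
    ext x; simp only [mem_union]
    constructor
    · rintro (hx | hx | hx)
      · exact Or.inr hx
      · exact Or.inl hx
      · exact Or.inr (hA hx)
    · rintro (hx | hx)
      · exact Or.inr (Or.inl hx)
      · exact Or.inl hx
  have e2 : (E \ X) ∩ (F ∪ A) = A := by
    ext x; simp only [mem_union, mem_inter]
    constructor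
    · rintro ⟨hx, hx2 | hx2⟩
      · exact absurd (hF hx2) (mem_sdiff.1 hx).2
      · exact hx2
    · intro hx
      exact ⟨hA hx, Or.inr hx⟩
  rw [e1, e2] at s2
  have s3 := h.submod X (F ∪ A)
  have e3 : X ∪ (F ∪ A) = A ∪ X := by
    ext x; simp only [mem_union]
    constructor
    · rintro (hx | hx | hx)
      · exact Or.inr hx
      · exact Or.inr (hF hx)
      · exact Or.inl hx
    · rintro (hx | hx)
      · exact Or.inr (Or.inr hx)
      · exact Or.inl hx
  have e4 : X ∩ (F ∪ A) = F := by
    ext x; simp only [mem_union, mem_inter]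
    constructor
    · rintro ⟨hx, hx2 | hx2⟩
      · exact hx2
      · exact absurd hx (mem_sdiff.1 (hA hx2)).2
    · intro hx
      exact ⟨hF hx, Or.inl hx⟩
  rw [e3, e4] at s3
  have s4 := h.submod (A ∪ X) (F ∪ (E \ X))
  have e5 : (A ∪ X) ∪ (F ∪ (E \ X)) = E := by
    ext x; simp only [mem_union, mem_sdiff]
    constructor
    · rintro ((hx | hx) | (hx | hx))
      · exact (mem_sdiff.1 (hA hx)).1
      · exact hX hx
      · exact hX (hF hx)
      · exact hx.1
    · intro hx
      by_cases hxx : x ∈ X
      · exact Or.inl (Or.inr hxx)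
      · exact Or.inr (Or.inr ⟨hx, hxx⟩)
  have e6 : (A ∪ X) ∩ (F ∪ (E \ X)) = F ∪ A := by
    ext x; simp only [mem_union, mem_inter, mem_sdiff]
    constructor
    · rintro ⟨h1 | h1, h2 | h2⟩
      · exact Or.inl h2
      · exact Or.inr h1
      · exact Or.inl h2
      · exact absurd h1 h2.2
    · rintro (h1 | h1)
      · exact ⟨Or.inr (hF h1), Or.inl h1⟩
      · exact ⟨Or.inl h1, Or.inr (mem_sdiff.1 (hA h1))⟩
  rw [e5, e6] at s4
  simp only [con]
  obtain ⟨b1a, b1b⟩ := b1
  obtain ⟨b2a, b2b⟩ := b2
  have c1 : r F - (r (F ∪ (E \ X)) - r (E \ X)) = 0 ∨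
      r F - (r (F ∪ (E \ X)) - r (E \ X)) = 1 := by omega
  have c2 : r A - (r (A ∪ X) - r X) = 0 ∨ r A - (r (A ∪ X) - r X) = 1 := by omega
  rcases c1 with c1 | c1 <;> rcases c2 with c2 | c2 <;> rw [c1, c2] <;> omega

theorem sdiff_sdiff_cancel {E X : Finset α} (hX : X ⊆ E) : E \ (E \ X) = X := by
  ext x; simp only [mem_sdiff]
  constructor
  · rintro ⟨h1, h2⟩
    by_contra h3
    exact h2 ⟨h1, h3⟩
  · intro hx
    exact ⟨hX hx, fun h2 => h2.2 hx⟩

theorem IsRank.net {r : Finset α → ℤ} (h : IsRank r) {E X : Finset α} {p : α} (hX : X ⊆ E)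
    (hp : p ∉ X) (hsep : r X + r (E \ X) = r E + 1) : IsRank (net r E X p) where
  empty := by simp [Pool.Agent.MP_58ca84_co.net, h.empty]
  mono := by
    intro A B hAB
    have hAX : A ∩ X ⊆ B ∩ X := inter_subset_inter hAB (Subset.refl _)
    have m1 := h.mono _ _ hAX
    have m2 := h.mono _ _ (union_subset_union hAX (Subset.refl (E \ X)))
    have b1 := phi_bounds h hX hsep (inter_subset_right : A ∩ X ⊆ X)
    simp only [Pool.Agent.MP_58ca84_co.net]
    by_cases hA : p ∈ A
    · have hB := hAB hA
      rw [if_pos hA, if_pos hB]; omega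
    · rw [if_neg hA]
      by_cases hB : p ∈ B
      · rw [if_pos hB]; omega
      · rw [if_neg hB]; omega
  single := by
    intro e
    simp only [Pool.Agent.MP_58ca84_co.net]
    by_cases he : p ∈ ({e} : Finset α)
    · rw [if_pos he]
      have he2 : p = e := mem_singleton.1 he
      have e1 : ({e} : Finset α) ∩ X = ∅ := by
        rw [← he2]
        exact singleton_inter_of_notMem hp
      rw [e1, empty_union]; omega
    · rw [if_neg he]
      exact le_trans (h.mono _ _ inter_subset_left) (h.single e)
  submod := by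
    intro A B
    simp only [Pool.Agent.MP_58ca84_co.net, mem_union, mem_inter]
    have key : ∀ A B : Finset α, r ((A ∪ B) ∩ X ∪ (E \ X)) + r ((A ∩ B) ∩ X) ≤
        r (A ∩ X ∪ (E \ X)) + r (B ∩ X) := by
      intro A B
      have h1 := h.submod (A ∩ X ∪ (E \ X)) (B ∩ X)
      have e1 : (A ∩ X ∪ (E \ X)) ∪ (B ∩ X) = (A ∪ B) ∩ X ∪ (E \ X) := by
        ext x; simp only [mem_union, mem_inter, mem_sdiff]; tauto
      have e2 : (A ∩ X ∪ (E \ X)) ∩ (B ∩ X) = (A ∩ B) ∩ X := by
        ext x; simp only [mem_union, mem_inter, mem_sdiff]; tauto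
      rw [e1, e2] at h1; exact h1
    by_cases hA : p ∈ A <;> by_cases hB : p ∈ B
    · simp only [hA, hB, or_self, and_self, if_true]
      have h1 := h.submod (A ∩ X ∪ (E \ X)) (B ∩ X ∪ (E \ X))
      have e1 : (A ∩ X ∪ (E \ X)) ∪ (B ∩ X ∪ (E \ X)) = (A ∪ B) ∩ X ∪ (E \ X) := by
        ext x; simp only [mem_union, mem_inter, mem_sdiff]; tauto
      have e2 : (A ∩ X ∪ (E \ X)) ∩ (B ∩ X ∪ (E \ X)) = (A ∩ B) ∩ X ∪ (E \ X) := by
        ext x; simp only [mem_union, mem_inter, mem_sdiff]; tauto
      rw [e1, e2] at h1; omega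
    · simp only [hA, hB, or_false, and_false, if_true, if_false]
      have := key A B
      omega
    · simp only [hA, hB, or_true, false_and, if_true, if_false]
      have h1 := key B A
      rw [union_comm B A, inter_comm B A] at h1
      omega
    · simp only [hA, hB, or_self, and_self, if_false]
      have h1 := h.submod (A ∩ X) (B ∩ X)
      have e1 : (A ∩ X) ∪ (B ∩ X) = (A ∪ B) ∩ X := by
        ext x; simp only [mem_union, mem_inter]; tauto
      have e2 : (A ∩ X) ∩ (B ∩ X) = (A ∩ B) ∩ X := by
        ext x; simp only [mem_inter]; tauto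
      rw [e1, e2] at h1; omega

theorem net_mem (r : Finset α → ℤ) {E X A : Finset α} {p : α} (hp : p ∈ A) :
    net r E X p A = r ((A ∩ X) ∪ (E \ X)) - r (E \ X) + 1 := if_pos hp

theorem net_notMem (r : Finset α → ℤ) {E X A : Finset α} {p : α} (hp : p ∉ A) :
    net r E X p A = r (A ∩ X) := if_neg hp

/-- The network of a 2-separating set in a connected matroid is connected. -/
theorem conn_net {r : Finset α → ℤ} {E X : Finset α} {p : α} (hc : Conn r E)
    (hX : X ⊆ E) (hXE : X ≠ E) (hp : p ∉ X) :
    Conn (net r E X p) (insert p X) := by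
  -- it suffices to treat the part not containing `p`
  have key : ∀ D, D ⊆ X → D.Nonempty →
      net r E X p (insert p X) + 1 ≤ net r E X p D + net r E X p (insert p X \ D) := by
    intro D hD hDn
    have hpD : p ∉ D := fun h => hp (hD h)
    have m1 : p ∈ insert p X := mem_insert_self _ _
    have m2 : p ∈ insert p X \ D := mem_sdiff.2 ⟨m1, hpD⟩
    rw [net_mem r m1, net_mem r m2, net_notMem r hpD]
    have e1 : insert p X ∩ X ∪ (E \ X) = E := by
      ext x; simp only [mem_union, mem_inter, mem_insert, mem_sdiff]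
      constructor
      · rintro (⟨_, h2⟩ | h2)
        · exact hX h2
        · exact h2.1
      · intro hx
        by_cases hxX : x ∈ X
        · exact Or.inl ⟨Or.inr hxX, hxX⟩
        · exact Or.inr ⟨hx, hxX⟩
    have e2 : D ∩ X = D := inter_eq_left.2 hD
    have e3 : (insert p X \ D) ∩ X ∪ (E \ X) = E \ D := by
      ext x; simp only [mem_union, mem_inter, mem_insert, mem_sdiff]
      constructor
      · rintro (⟨h1, h2⟩ | h2)
        · exact ⟨hX h2, h1.2⟩
        · exact ⟨h2.1, fun h3 => h2.2 (hD h3)⟩
      · rintro ⟨h1, h2⟩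
        by_cases hxX : x ∈ X
        · exact Or.inl ⟨⟨Or.inr hxX, h2⟩, hxX⟩
        · exact Or.inr ⟨h1, hxX⟩
    rw [e1, e2, e3]
    have hDE : D ≠ E := by
      intro h
      apply hXE
      exact Subset.antisymm hX (h ▸ hD)
    have := hc D (hD.trans hX) hDn hDE
    omega
  intro D hD hDn hDne
  by_cases hpD : p ∈ D
  · have hsub : insert p X \ D ⊆ X := by
      intro x hx
      rw [mem_sdiff, mem_insert] at hx
      rcases hx.1 with h | h
      · exact absurd (h ▸ hpD) hx.2
      · exact h
    have hne : (insert p X \ D).Nonempty := by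
      rw [sdiff_nonempty]
      intro h
      exact hDne (Subset.antisymm hD h)
    have := key _ hsub hne
    rw [sdiff_sdiff_cancel hD] at this
    omega
  · have hsub : D ⊆ X := by
      intro x hx
      rcases mem_insert.1 (hD hx) with h | h
      · exact absurd (h ▸ hx) hpD
      · exact h
    exact key D hsub hDn

/-- Elements of a connected matroid are neither loops nor coloops. -/
theorem Conn.elem {r : Finset α → ℤ} (h : IsRank r) {E : Finset α} (hc : Conn r E)
    (hcard : 2 ≤ E.card) {e : α} (he : e ∈ E) : r {e} = 1 ∧ r (E.erase e) = r E := by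
  have h1 : ({e} : Finset α) ≠ E := by
    intro h
    rw [← h] at hcard
    simp at hcard
  have h2 := hc {e} (singleton_subset_iff.2 he) (singleton_nonempty e) h1
  rw [sdiff_singleton_eq_erase] at h2
  have h3 := h.single e
  have h4 := h.mono _ _ (erase_subset e E)
  omega

theorem conn_of_erase {r : Finset α → ℤ} {E : Finset α} {e0 : α}
    (H : ∀ D, D ⊆ E.erase e0 → D.Nonempty → r E + 1 ≤ r D + r (E \ D)) : Conn r E := by
  intro X hX hXn hXE
  by_cases he : e0 ∈ X
  · have h1 : E \ X ⊆ E.erase e0 := by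
      intro x hx
      rw [mem_sdiff] at hx
      exact mem_erase.2 ⟨fun h => hx.2 (h ▸ he), hx.1⟩
    have h2 : (E \ X).Nonempty := by
      rw [sdiff_nonempty]
      intro h
      exact hXE (Subset.antisymm hX h)
    have := H _ h1 h2
    rw [sdiff_sdiff_cancel hX] at this
    omega
  · exact H X (fun x hx => mem_erase.2 ⟨fun h => he (h ▸ hx), hX hx⟩) hXn

/-- The decomposition lemma: with respect to an element `e0` of a connected matroid with at least
three elements there is a 2-separating set `X` such that `X` is in parallel with `e0`, or in series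
with `e0`, or all of the relevant minors are connected. -/
theorem decomp {r : Finset α → ℤ} (h : IsRank r) {E : Finset α} {e0 : α} (hc : Conn r E)
    (he0 : e0 ∈ E) (hcard : 3 ≤ E.card) :
    ∃ X, X ⊆ E.erase e0 ∧ X.Nonempty ∧ X ≠ E.erase e0 ∧ r X + r (E \ X) = r E + 1 ∧
      ((r (insert e0 X) = r X ∧ Conn r (E \ X)) ∨
       (r (insert e0 X) = r X + 1 ∧ r ((E \ X).erase e0) = r (E \ X) - 1 ∧
          Conn (con r X) (E \ X)) ∨
       (r (insert e0 X) = r X + 1 ∧ r ((E \ X).erase e0) = r (E \ X) ∧
          Conn r (E \ X) ∧ Conn (con r X) (E \ X) ∧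
          Conn (net r (E.erase e0) ((E \ X).erase e0) e0) (E \ X) ∧
          Conn (net (con r {e0}) (E.erase e0) ((E \ X).erase e0) e0) (E \ X))) := by
  classical
  obtain ⟨re0, rEe0⟩ := hc.elem h (by omega) he0
  -- the family of 2-separating sets
  set S : Finset (Finset α) := (E.erase e0).powerset.filter
    (fun X => X.Nonempty ∧ X ≠ E.erase e0 ∧ r X + r (E \ X) ≤ r E + 1) with hS
  have hcard2 : 2 ≤ (E.erase e0).card := by
    rw [card_erase_of_mem he0]; omega
  have hSne : S.Nonempty := by
    obtain ⟨e, he⟩ : (E.erase e0).Nonempty := by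
      rw [← card_pos]; omega
    refine ⟨{e}, ?_⟩
    rw [hS, mem_filter, mem_powerset]
    refine ⟨singleton_subset_iff.2 he, singleton_nonempty e, ?_, ?_⟩
    · intro h1
      rw [← h1] at hcard2
      simp at hcard2
    · have := h.single e
      have := h.mono _ _ (sdiff_subset : E \ {e} ⊆ E)
      omega
  obtain ⟨X, hXS, hXmax⟩ := exists_max_image S card hSne
  rw [hS, mem_filter, mem_powerset] at hXS
  obtain ⟨hXsub, hXn, hXne, hXle⟩ := hXS
  have hXE : X ⊆ E := hXsub.trans (erase_subset _ _)
  have he0X : e0 ∉ X := fun h => (mem_erase.1 (hXsub h)).1 rfl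
  have hXneE : X ≠ E := fun h => he0X (h ▸ he0)
  have hsep : r X + r (E \ X) = r E + 1 := by
    have := hc X hXE hXn hXneE
    omega
  have hmax : ∀ X', X ⊆ X' → X' ⊆ E.erase e0 → r X' + r (E \ X') ≤ r E + 1 →
      X' = X ∨ X' = E.erase e0 := by
    intro X' h1 h2 h3
    by_cases h4 : X' = E.erase e0
    · exact Or.inr h4
    · left
      have h5 : X' ∈ S := by
        rw [hS, mem_filter, mem_powerset]
        exact ⟨h2, hXn.mono h1, h4, h3⟩
      exact (eq_of_subset_of_card_le h1 (hXmax X' h5)).symm
  set Y := E \ X with hY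
  have he0Y : e0 ∈ Y := mem_sdiff.2 ⟨he0, he0X⟩
  have hYX : E \ Y = X := sdiff_sdiff_cancel hXE
  have hYE : Y ⊆ E := sdiff_subset
  have hYer : (E.erase e0) \ (Y.erase e0) = X := by
    ext x; simp only [hY, mem_sdiff, mem_erase]
    constructor
    · rintro ⟨⟨h1, h2⟩, h3⟩
      by_contra h4
      exact h3 ⟨h1, h2, h4⟩
    · intro hx
      exact ⟨mem_erase.1 (hXsub hx), fun h5 => h5.2.2 hx⟩
  have hpsi : ∀ A, A ⊆ Y → r A + r X - r (A ∪ X) ≤ 1 := by
    intro A hA
    have h1 : r Y + r (E \ Y) = r E + 1 := by rw [hYX]; omega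
    have := phi_bounds h hYE h1 hA
    rw [hYX] at this
    exact this.2
  have hYbd : r Y ≤ r (Y.erase e0) + 1 := by
    have := h.insert_le (Y.erase e0) e0
    rw [insert_erase he0Y] at this
    exact this
  have hYbd2 : r (Y.erase e0) ≤ r Y := h.mono _ _ (erase_subset _ _)
  have hXbd : r (insert e0 X) ≤ r X + 1 := h.insert_le X e0
  have hXbd2 : r X ≤ r (insert e0 X) := h.mono _ _ (subset_insert _ _)
  -- not series implies `Conn r Y`
  have C1 : r (Y.erase e0) = r Y → Conn r Y := by
    intro hnS
    apply conn_of_erase (e0 := e0)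
    intro D hD hDn
    by_contra hcon
    push Not at hcon
    have hDY : D ⊆ Y := hD.trans (erase_subset _ _)
    have h1 : E \ (X ∪ D) = Y \ D := by
      rw [hY]; ext x; simp only [mem_sdiff, mem_union]; tauto
    have h2 := h.subadd X D
    have h3 : r (X ∪ D) + r (E \ (X ∪ D)) ≤ r E + 1 := by rw [h1]; omega
    have h4 : X ∪ D ⊆ E.erase e0 :=
      union_subset hXsub (hD.trans (erase_subset_erase e0 hYE))
    rcases hmax _ subset_union_left h4 h3 with h5 | h5
    · obtain ⟨x, hx⟩ := hDn
      have : x ∈ X := h5 ▸ mem_union_right X hx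
      exact (mem_sdiff.1 (hDY hx)).2 this
    · have h6 : D = Y.erase e0 := by
        apply Subset.antisymm hD
        intro x hx
        have h7 : x ∈ X ∪ D := h5 ▸ (erase_subset_erase e0 hYE hx)
        rcases mem_union.1 h7 with h8 | h8
        · exact absurd h8 (mem_sdiff.1 (mem_of_mem_erase hx)).2
        · exact h8
      have h7 : Y \ D = {e0} := by
        rw [h6]; ext x; simp only [mem_sdiff, mem_erase, mem_singleton]
        constructor
        · rintro ⟨h8, h9⟩
          by_contra h10
          exact h9 ⟨h10, h8⟩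
        · intro hx
          subst hx
          exact ⟨he0Y, fun h8 => h8.1 rfl⟩
      rw [h7, h6] at hcon
      omega
  -- not parallel implies `Conn (con r X) Y`
  have C2 : r (insert e0 X) = r X + 1 → Conn (con r X) Y := by
    intro hnP
    apply conn_of_erase (e0 := e0)
    intro D hD hDn
    by_contra hcon
    push Not at hcon
    have hDY : D ⊆ Y := hD.trans (erase_subset _ _)
    have hYXE : Y ∪ X = E := by
      rw [hY]; exact sdiff_union_of_subset hXE
    simp only [Pool.Agent.MP_58ca84_co.con] at hcon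
    rw [hYXE] at hcon
    have h1 : E \ (X ∪ D) = Y \ D := by
      rw [hY]; ext x; simp only [mem_sdiff, mem_union]; tauto
    have h2 := hpsi (Y \ D) sdiff_subset
    rw [union_comm D X] at hcon
    have h3 : r (X ∪ D) + r (E \ (X ∪ D)) ≤ r E + 1 := by rw [h1]; omega
    have h4 : X ∪ D ⊆ E.erase e0 :=
      union_subset hXsub (hD.trans (erase_subset_erase e0 hYE))
    rcases hmax _ subset_union_left h4 h3 with h5 | h5
    · obtain ⟨x, hx⟩ := hDn
      have : x ∈ X := h5 ▸ mem_union_right X hx
      exact (mem_sdiff.1 (hDY hx)).2 this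
    · have h6 : D = Y.erase e0 := by
        apply Subset.antisymm hD
        intro x hx
        have h7 : x ∈ X ∪ D := h5 ▸ (erase_subset_erase e0 hYE hx)
        rcases mem_union.1 h7 with h8 | h8
        · exact absurd h8 (mem_sdiff.1 (mem_of_mem_erase hx)).2
        · exact h8
      have h7 : Y \ D = {e0} := by
        rw [h6]; ext x; simp only [mem_sdiff, mem_erase, mem_singleton]
        constructor
        · rintro ⟨h8, h9⟩
          by_contra h10
          exact h9 ⟨h10, h8⟩
        · intro hx
          subst hx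
          exact ⟨he0Y, fun h8 => h8.1 rfl⟩
      rw [h7, h5] at hcon
      have h8 : ({e0} : Finset α) ∪ X = insert e0 X := by
        ext x; simp
      rw [h8] at hcon
      omega
  -- common facts for the last two claims
  have hX' : ∀ D, D ⊆ Y.erase e0 → D.Nonempty →
      r (((Y \ D).erase e0) ∪ X) + r (insert e0 D) ≤ r E + 1 → D = Y.erase e0 := by
    intro D hD hDn h3
    have h1 : E \ (((Y \ D).erase e0) ∪ X) = insert e0 D := by
      rw [hY]; ext x; simp only [mem_sdiff, mem_union, mem_erase, mem_insert]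
      constructor
      · rintro ⟨h4, h5⟩
        by_cases hx : x = e0
        · exact Or.inl hx
        · right
          by_contra h6
          apply h5
          by_cases h7 : x ∈ X
          · exact Or.inr h7
          · exact Or.inl ⟨hx, ⟨h4, h7⟩, h6⟩
      · rintro (h4 | h4)
        · subst h4
          exact ⟨he0, fun h5 => h5.elim (fun h6 => h6.1 rfl) he0X⟩
        · have h5 := hD h4
          rw [mem_erase, hY, mem_sdiff] at h5
          exact ⟨h5.2.1, fun h6 => h6.elim (fun h7 => h7.2.2 h4) h5.2.2⟩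
    have h4 : ((Y \ D).erase e0) ∪ X ⊆ E.erase e0 :=
      union_subset (erase_subset_erase e0 (sdiff_subset.trans hYE)) hXsub
    rw [← h1] at h3
    rcases hmax _ subset_union_right h4 h3 with h5 | h5
    · apply Subset.antisymm hD
      intro x hx
      by_contra h6
      rw [mem_erase] at hx
      have h7 : x ∈ ((Y \ D).erase e0) ∪ X :=
        mem_union_left X (mem_erase.2 ⟨hx.1, mem_sdiff.2 ⟨hx.2, h6⟩⟩)
      rw [h5] at h7
      exact (mem_sdiff.1 hx.2).2 h7
    · obtain ⟨x, hx⟩ := hDn
      have h6 : x ∈ E.erase e0 := erase_subset_erase e0 hYE (hD hx)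
      rw [← h5] at h6
      rcases mem_union.1 h6 with h7 | h7
      · exact absurd hx (mem_sdiff.1 (mem_of_mem_erase h7)).2
      · exact absurd h7 (mem_sdiff.1 (mem_of_mem_erase (hD hx))).2
  have hcap : ∀ D, (Y \ D) ∩ (Y.erase e0) = (Y \ D).erase e0 := by
    intro D; ext x; simp only [mem_inter, mem_erase, mem_sdiff]; tauto
  have hYeX : (Y.erase e0) ∪ X = E.erase e0 := by
    rw [hY]; ext x; simp only [mem_union, mem_erase, mem_sdiff]
    constructor
    · rintro (h4 | h4)
      · exact ⟨h4.1, h4.2.1⟩
      · exact mem_erase.1 (hXsub h4)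
    · rintro ⟨h4, h5⟩
      by_cases h6 : x ∈ X
      · exact Or.inr h6
      · exact Or.inl ⟨h4, h5, h6⟩
  have hYcap : Y ∩ (Y.erase e0) = Y.erase e0 := inter_eq_right.2 (erase_subset _ _)
  have C3 : r (Y.erase e0) = r Y → Conn (net r (E.erase e0) (Y.erase e0) e0) Y := by
    intro hnS
    apply conn_of_erase (e0 := e0)
    intro D hD hDn
    by_contra hcon
    push Not at hcon
    have he0D : e0 ∉ D := fun h => (mem_erase.1 (hD h)).1 rfl
    rw [net_mem r he0Y, net_notMem r he0D, net_mem r (mem_sdiff.2 ⟨he0Y, he0D⟩), hYer, hcap,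
      hYcap, hYeX, rEe0, inter_eq_left.2 hD] at hcon
    have h1 := h.insert_le D e0
    have h2 := hX' D hD hDn (by omega)
    have h3 : (Y \ D).erase e0 = ∅ := by
      rw [h2]; ext x; simp only [mem_erase, mem_sdiff, notMem_empty, iff_false]; tauto
    rw [h3, empty_union, h2] at hcon
    omega
  have C4 : r (insert e0 X) = r X + 1 →
      Conn (net (con r {e0}) (E.erase e0) (Y.erase e0) e0) Y := by
    intro hnP
    apply conn_of_erase (e0 := e0)
    intro D hD hDn
    by_contra hcon
    push Not at hcon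
    have he0D : e0 ∉ D := fun h => (mem_erase.1 (hD h)).1 rfl
    rw [net_mem _ he0Y, net_notMem _ he0D, net_mem _ (mem_sdiff.2 ⟨he0Y, he0D⟩), hYer, hcap,
      hYcap, hYeX, inter_eq_left.2 hD] at hcon
    simp only [Pool.Agent.MP_58ca84_co.con] at hcon
    have h1 : E.erase e0 ∪ {e0} = E := by
      ext x; simp only [mem_union, mem_erase, mem_singleton]
      constructor
      · rintro (h2 | h2)
        · exact h2.2
        · exact h2 ▸ he0
      · intro hx
        by_cases h2 : x = e0
        · exact Or.inr h2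
        · exact Or.inl ⟨h2, hx⟩
    have h2 : D ∪ {e0} = insert e0 D := by
      ext x; simp
    have h3 : X ∪ {e0} = insert e0 X := by
      ext x; simp
    rw [h1, h2, h3] at hcon
    have h4 := h.mono _ _ (subset_union_left : (Y \ D).erase e0 ∪ X ⊆
      ((Y \ D).erase e0 ∪ X) ∪ {e0})
    have h5 := hX' D hD hDn (by omega)
    have h6 : (Y \ D).erase e0 = ∅ := by
      rw [h5]; ext x; simp only [mem_erase, mem_sdiff, notMem_empty, iff_false]; tauto
    rw [h6, empty_union, h3, h5, insert_erase he0Y] at hcon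
    omega
  -- parallel and series are exclusive
  have hexcl : r (insert e0 X) = r X → r (Y.erase e0) = r Y - 1 → False := by
    intro hP hS'
    have h1 : insert e0 X ⊆ E := insert_subset he0 hXE
    have h2 : insert e0 X ≠ E := by
      intro h3
      apply hXne
      rw [← h3, erase_insert he0X]
    have h3 := hc _ h1 (insert_nonempty _ _) h2
    have h4 : E \ insert e0 X = Y.erase e0 := by
      rw [hY]; ext x; simp only [mem_sdiff, mem_insert, mem_erase]; tauto
    rw [h4] at h3
    omega
  refine ⟨X, hXsub, hXn, hXne, hsep, ?_⟩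
  by_cases hP : r (insert e0 X) = r X
  · left
    refine ⟨hP, C1 ?_⟩
    by_contra h1
    exact hexcl hP (by omega)
  · have hP' : r (insert e0 X) = r X + 1 := by omega
    right
    by_cases hS' : r (Y.erase e0) = r Y - 1
    · left
      exact ⟨hP', hS', C2 hP'⟩
    · right
      have hS'' : r (Y.erase e0) = r Y := by omega
      exact ⟨hP', hS'', C1 hS'', C2 hP', C3 hS'', C4 hP'⟩

end Pool.Agent.MP_58ca84_co
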