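import Pool.Agent.Lib.MP_58ca84_co.Closure

/-!
# The improvement step for large networks
-/

namespace Pool.Agent.MP_58ca84_co

/-- The inequalities needed to improve the bound `W` to `Φ`. -/
structure Cond (t y q W F : ℝ) : Prop where
  one : 1 ≤ F
  w1 : 1 ≤ W
  c0 : 0 < 1 - (1 - q) * W
  c0' : 0 ≤ 1 - (1 - q) * F
  c1 : y * W ≤ F
  c2 : t * (W - 1) ≤ F * (1 - (1 - q) * W)
  c3 : 1 + t * W ≤ F * (1 + (1 - q) * t * W)
  c4 : (1 - (1 - q) * W) + y * (W - 1) ≤ F * ((1 - (1 - q) * W) + (1 - q) * y * (W - 1))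
  c5 : y * (W - 1) ≤ F - 1
  c6 : t * (W - 1) ≤ (1 + t) * (F - 1)
  cA1 : q < 1 → t * (1 - y) * W ≤ F - 1
  cA2 : 1 < q → 1 + t * W ≤ F * (1 + (q - 1) * W)
  cB : 1 < q → y * (W - 1) ≤ (1 - y) * (F - 1)

theorem QP.par_step {t y q W F g1 d1 g2 d2 g d : ℝ} (hp : Par t y q) (hC : Cond t y q W F)
    (h1 : T1P t y q g1 d1) (h2 : T1P t y q g2 d2) (hQ : QP W q g2 d2)
    (hg : g = (1 - q) * (g1 * g2)) (hA : g + q * d = (g1 + q * d1) * (g2 + q * d2)) :
    QP F q g d := by
  obtain ⟨a1, a2⟩ := h1.y_bounds hp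
  have p1 := h1.pos
  have p2 := h2.pos
  have hq0 := hp.q0
  have hQa := hQ.a
  have hQb := hQ.b
  have hF1 := hC.one
  have hW1 := hC.w1
  have hc0 := hC.c0
  have hc0' := hC.c0'
  have hy0 := hp.y0
  have ht0 := hp.t0
  have c1 := hC.c1
  have c2 := hC.c2
  have c3 := hC.c3
  have c4 := hC.c4
  -- rewrite the second bound
  have hQb' : -g2 * (1 - (1 - q) * W) ≤ (W - 1) * (g2 + q * d2) := by
    have := mul_le_mul_of_nonneg_left hQb hq0.le
    nlinarith
  obtain ⟨A1, hA1⟩ : ∃ A1, A1 = g1 + q * d1 := ⟨_, rfl⟩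
  obtain ⟨A2, hA2⟩ : ∃ A2, A2 = g2 + q * d2 := ⟨_, rfl⟩
  rw [← hA1] at a1 a2 p1 hA
  rw [← hA2] at hQa p2 hQb' hA
  obtain ⟨u, hu⟩ : ∃ u, u = (1 - q) * g1 / A1 := ⟨_, rfl⟩
  obtain ⟨w, hw⟩ : ∃ w, w = g2 / A2 := ⟨_, rfl⟩
  have u1 : -t ≤ u := by rw [hu, le_div_iff₀ p1]; exact a1
  have u2 : u ≤ y := by rw [hu, div_le_iff₀ p1]; exact a2
  have w1 : w ≤ W := by rw [hw, div_le_iff₀ p2]; exact hQa
  have w2 : -w * (1 - (1 - q) * W) ≤ W - 1 := by
    rw [hw]
    have : -(g2 / A2) * (1 - (1 - q) * W) = (-g2 * (1 - (1 - q) * W)) / A2 := by ring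
    rw [this, div_le_iff₀ p2]; exact hQb'
  have hgw : g = (u * w) * (g + q * d) := by
    rw [hA, hg, hu, hw]; field_simp
  have hApos : 0 < g + q * d := by rw [hA]; exact mul_pos p1 p2
  obtain ⟨c, hc⟩ : ∃ c, c = 1 - (1 - q) * W := ⟨_, rfl⟩
  rw [← hc] at w2 c2 c4 hc0
  -- the bound on the product
  have m1 : u * w ≤ F := by
    rcases le_total 0 u with hu0 | hu0
    · rcases le_total 0 w with hw0 | hw0
      · calc u * w ≤ y * W := mul_le_mul u2 w1 hw0 hy0.le
          _ ≤ F := c1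
      · nlinarith [mul_nonneg hu0 (neg_nonneg.2 hw0)]
    · rcases le_total 0 w with hw0 | hw0
      · nlinarith [mul_nonneg hw0 (neg_nonneg.2 hu0)]
      · have k1 : (-u) * (-w) ≤ t * (-w) := mul_le_mul_of_nonneg_right (by linarith) (by linarith)
        have k2 : c * (t * (-w)) ≤ c * F := by
          have : t * (-w * c) ≤ t * (W - 1) := mul_le_mul_of_nonneg_left w2 ht0
          nlinarith
        have k3 : t * (-w) ≤ F := le_of_mul_le_mul_left k2 hc0
        linarith
  have m2 : -(u * w) * (1 - (1 - q) * F) ≤ F - 1 := by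
    rcases le_total 0 (u * w) with h0 | h0
    · have : 0 ≤ (u * w) * (1 - (1 - q) * F) := mul_nonneg h0 hc0'
      linarith
    · rcases le_total 0 u with hu0 | hu0
      · rcases le_total 0 w with hw0 | hw0
        · have : u * w = 0 := le_antisymm h0 (mul_nonneg hu0 hw0)
          rw [this]; linarith
        · have k1 : u * (-w) ≤ y * (-w) := mul_le_mul_of_nonneg_right u2 (by linarith)
          have k2 : c * (-(u * w)) ≤ y * (W - 1) := by
            have h3 : c * (u * (-w)) ≤ c * (y * (-w)) := mul_le_mul_of_nonneg_left k1 hc0.le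
            have h4 : y * (-w * c) ≤ y * (W - 1) := mul_le_mul_of_nonneg_left w2 hy0.le
            nlinarith
          have k3 : c * (-(u * w)) * (1 - (1 - q) * F) ≤ y * (W - 1) * (1 - (1 - q) * F) :=
            mul_le_mul_of_nonneg_right k2 hc0'
          have k4 : c * (-(u * w) * (1 - (1 - q) * F)) ≤ c * (F - 1) := by
            nlinarith
          exact le_of_mul_le_mul_left k4 hc0
      · rcases le_total 0 w with hw0 | hw0
        · have k1 : (-u) * w ≤ t * W :=
            mul_le_mul (by linarith) w1 hw0 ht0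
          have k2 : -(u * w) * (1 - (1 - q) * F) ≤ t * W * (1 - (1 - q) * F) := by
            apply mul_le_mul_of_nonneg_right _ hc0'
            linarith
          nlinarith
        · have : u * w = 0 := le_antisymm h0 (mul_nonneg_of_nonpos_of_nonpos hu0 hw0)
          rw [this]; linarith
  refine ⟨?_, ?_⟩
  · rw [hgw]
    have : (u * w * (g + q * d) + q * d) = g + q * d := by rw [← hgw]
    rw [this]
    exact mul_le_mul_of_nonneg_right m1 hApos.le
  · have k1 := mul_le_mul_of_nonneg_right m2 hApos.le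
    have k2 : -(u * w) * (1 - (1 - q) * F) * (g + q * d) = -g * (1 - (1 - q) * F) := by
      nth_rewrite 2 [hgw]; ring
    rw [k2] at k1
    have k3 : q * d ≤ q * (F * (g + d)) := by nlinarith
    exact le_of_mul_le_mul_left k3 hq0

theorem QP.ser_step {t y q W F g1 d1 g2 d2 g d : ℝ} (hp : Par t y q) (hC : Cond t y q W F)
    (h1 : T1P t y q g1 d1) (h2 : T1P t y q g2 d2) (hQ : QP W q g2 d2)
    (hd : d = (1 - q) * (d1 * d2)) (hB : g + d = (g1 + d1) * (g2 + d2)) :
    QP F q g d := by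
  apply QP.undual hp.q0
  apply QP.unscale hp.q0
  apply QP.par_step hp hC (h1.dual hp) (h2.dual hp) (hQ.dual hp.q0)
  · rw [hd]; ring
  · have : q * (q * d) + q * (q * g) = q * q * (g + d) := by ring
    rw [this, hB]; ring

theorem mix_up {q gX dX g1 d1 g2 d2 V F : ℝ} (hq : 0 < q) (pA : 0 < gX + q * dX)
    (pB : 0 < gX + dX) (p1 : 0 < g1 + q * d1) (p2 : 0 < g2 + q * d2) (kd : 0 < d2 + q * d1)
    (u1 : g1 ≤ V * (g1 + q * d1)) (u2 : g2 ≤ V * (g2 + q * d2)) (hF : 1 ≤ F)
    (cP : 0 ≤ (1 - q) * gX → (1 - q) * gX * (V - 1) ≤ (F - 1) * (gX + q * dX))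
    (cN : (1 - q) * gX ≤ 0 → -((1 - q) * gX) * (V - 1) ≤ (F - 1) * (q * (gX + dX))) :
    (gX + q * dX) * g1 + (gX + dX) * g2 ≤
      F * ((gX + q * dX) * (g1 + q * d1) + (gX + dX) * (g2 + q * d2)) := by
  have hPe : (1 - q) * gX = (gX + q * dX) - q * (gX + dX) := by ring
  obtain ⟨P, hP⟩ : ∃ P, P = (1 - q) * gX := ⟨_, rfl⟩
  obtain ⟨A, hA⟩ : ∃ A, A = gX + q * dX := ⟨_, rfl⟩
  obtain ⟨B, hB⟩ : ∃ B, B = gX + dX := ⟨_, rfl⟩
  obtain ⟨A1, hA1⟩ : ∃ A1, A1 = g1 + q * d1 := ⟨_, rfl⟩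
  obtain ⟨A2, hA2⟩ : ∃ A2, A2 = g2 + q * d2 := ⟨_, rfl⟩
  rw [← hP] at cP cN hPe
  rw [← hA] at pA cP hPe ⊢
  rw [← hB] at pB cN hPe ⊢
  have key : (F - 1) * (q * A1 + A2) ≤ q * (F * A1 - g1) + (F * A2 - g2) := by
    have : q * A1 + A2 = (g2 + q * g1) + q * (d2 + q * d1) := by rw [hA1, hA2]; ring
    nlinarith [mul_pos hq kd]
  rw [← hA1] at p1 u1 ⊢
  rw [← hA2] at p2 u2 ⊢
  rcases le_total 0 P with h0 | h0
  · have c := cP h0
    have e : F * (A * A1 + B * A2) - (A * g1 + B * g2) =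
        P * (F * A1 - g1) + B * (q * (F * A1 - g1) + (F * A2 - g2)) := by
      have : A = P + q * B := by linarith
      rw [this]; ring
    have k1 : P * ((F - V) * A1) ≤ P * (F * A1 - g1) :=
      mul_le_mul_of_nonneg_left (by nlinarith) h0
    have k2 : B * ((F - 1) * (q * A1)) ≤ B * (q * (F * A1 - g1) + (F * A2 - g2)) := by
      apply mul_le_mul_of_nonneg_left _ pB.le
      have : 0 ≤ (F - 1) * A2 := mul_nonneg (by linarith) p2.le
      nlinarith
    have k3 : 0 ≤ A1 * ((F - 1) * A - P * (V - 1)) := mul_nonneg p1.le (by linarith)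
    have k4 : P * ((F - V) * A1) + B * ((F - 1) * (q * A1)) =
        A1 * ((F - 1) * A - P * (V - 1)) := by
      have : A = P + q * B := by linarith
      rw [this]; ring
    linarith
  · have c := cN h0
    have e : q * (F * (A * A1 + B * A2) - (A * g1 + B * g2)) =
        A * (q * (F * A1 - g1) + (F * A2 - g2)) + (-P) * (F * A2 - g2) := by
      have : q * B = A - P := by linarith
      have h2 : q * (F * (A * A1 + B * A2) - (A * g1 + B * g2)) =
        A * (q * (F * A1 - g1)) + (q * B) * (F * A2 - g2) := by ring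
      rw [h2, this]; ring
    have k1 : (-P) * ((F - V) * A2) ≤ (-P) * (F * A2 - g2) :=
      mul_le_mul_of_nonneg_left (by nlinarith) (by linarith)
    have k2 : A * ((F - 1) * A2) ≤ A * (q * (F * A1 - g1) + (F * A2 - g2)) := by
      apply mul_le_mul_of_nonneg_left _ pA.le
      have : 0 ≤ (F - 1) * (q * A1) := mul_nonneg (by linarith) (by positivity)
      nlinarith
    have k3 : 0 ≤ A2 * ((F - 1) * (q * B) - (-P) * (V - 1)) := mul_nonneg p2.le (by linarith)
    have k4 : (-P) * ((F - V) * A2) + A * ((F - 1) * A2) =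
        A2 * ((F - 1) * (q * B) - (-P) * (V - 1)) := by
      have : q * B = A - P := by linarith
      rw [this]; ring
    have k5 : 0 ≤ q * (F * (A * A1 + B * A2) - (A * g1 + B * g2)) := by
      rw [e]; linarith
    have k6 := nonneg_of_mul_nonneg_right k5 hq
    linarith

/-- The crude bound `V`. -/
structure Crude (t y q V : ℝ) : Prop where
  lt : q < 1 → (1 - q) * V = y
  gt : 1 < q → (q - 1) * V = t

theorem Par.lt_or_gt {t y q : ℝ} (hp : Par t y q) : q < 1 ∨ 1 < q := lt_or_gt_of_ne hp.q1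

theorem Crude.one_le {t y q V : ℝ} (hp : Par t y q) (hV : Crude t y q V) : 1 ≤ V := by
  have hq := hp.hq
  have ht := hp.t0
  have hy := hp.y1
  have hy0 := hp.y0
  rcases hp.lt_or_gt with h | h
  · have h1 := hV.lt h
    have h2 : (1 - q) * 1 ≤ (1 - q) * V := by
      rw [h1, hq]; nlinarith
    exact le_of_mul_le_mul_left h2 (by linarith)
  · have h1 := hV.gt h
    have h2 : (q - 1) * 1 ≤ (q - 1) * V := by
      rw [h1, hq]; nlinarith
    exact le_of_mul_le_mul_left h2 (by linarith)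

theorem Crude.a {t y q V g d : ℝ} (hp : Par t y q) (hV : Crude t y q V) (h : T1P t y q g d) :
    g ≤ V * (g + q * d) := by
  obtain ⟨a1, a2⟩ := h.y_bounds hp
  rcases hp.lt_or_gt with hq | hq
  · have h1 := hV.lt hq
    have h2 : (1 - q) * g ≤ (1 - q) * (V * (g + q * d)) := by
      rw [← mul_assoc, h1]; exact a2
    exact le_of_mul_le_mul_left h2 (by linarith)
  · have h1 := hV.gt hq
    have h2 : (q - 1) * g ≤ (q - 1) * (V * (g + q * d)) := by
      rw [← mul_assoc, h1]; linarith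
    exact le_of_mul_le_mul_left h2 (by linarith)

theorem Crude.qp {t y q V g d : ℝ} (hp : Par t y q) (hV : Crude t y q V) (h : T1P t y q g d) :
    QP V q g d := by
  refine ⟨hV.a hp h, ?_⟩
  have h1 := hV.a hp (h.dual hp)
  have h2 : q * d ≤ q * (V * (g + d)) := by linarith
  exact le_of_mul_le_mul_left h2 hp.q0

theorem cond_small {t y q W F gX dX : ℝ} (hp : Par t y q) (hC : Cond t y q W F)
    (hX : T1P t y q gX dX) :
    (0 ≤ (1 - q) * gX → (1 - q) * gX * (W - 1) ≤ (F - 1) * (gX + q * dX)) ∧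
    ((1 - q) * gX ≤ 0 → -((1 - q) * gX) * (W - 1) ≤ (F - 1) * (q * (gX + dX))) := by
  obtain ⟨a1, a2⟩ := hX.y_bounds hp
  have pA := hX.pos
  have hPe : q * (gX + dX) = (gX + q * dX) - (1 - q) * gX := by ring
  have c5 := hC.c5
  have c6 := hC.c6
  have hW := hC.w1
  have hF := hC.one
  obtain ⟨P, hP⟩ : ∃ P, P = (1 - q) * gX := ⟨_, rfl⟩
  obtain ⟨A, hA⟩ : ∃ A, A = gX + q * dX := ⟨_, rfl⟩
  rw [hPe]
  rw [← hP, ← hA] at a1 a2
  rw [← hA] at pA
  rw [← hP, ← hA]
  constructor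
  · intro _
    have k1 := mul_le_mul_of_nonneg_right a2 (by linarith : (0:ℝ) ≤ W - 1)
    have k2 := mul_le_mul_of_nonneg_right c5 pA.le
    nlinarith
  · intro h0
    rcases le_total W F with h | h
    · have : -P * (W - F) ≤ 0 := mul_nonpos_of_nonneg_of_nonpos (by linarith) (by linarith)
      nlinarith [mul_nonneg (by linarith : (0:ℝ) ≤ F - 1) pA.le]
    · have k1 : -P * (W - F) ≤ t * A * (W - F) :=
        mul_le_mul_of_nonneg_right (by linarith) (by linarith)
      have k2 : A * (t * (W - F)) ≤ A * (F - 1) :=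
        mul_le_mul_of_nonneg_left (by linarith) pA.le
      nlinarith

theorem cond_large {t y q W F V gX dX : ℝ} (hp : Par t y q) (hC : Cond t y q W F)
    (hV : Crude t y q V) (hX : T1P t y q gX dX) (hQ : QP W q gX dX) :
    (0 ≤ (1 - q) * gX → (1 - q) * gX * (V - 1) ≤ (F - 1) * (gX + q * dX)) ∧
    ((1 - q) * gX ≤ 0 → -((1 - q) * gX) * (V - 1) ≤ (F - 1) * (q * (gX + dX))) := by
  have pA := hX.pos
  have pB := hX.posB hp.t0
  have hPe : q * (gX + dX) = (gX + q * dX) - (1 - q) * gX := by ring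
  have hW := hC.w1
  have hF := hC.one
  have hV1 := hV.one_le hp
  have hq := hp.hq
  have ht := hp.t0
  have hy := hp.y1
  have hy0 := hp.y0
  have hq0 := hp.q0
  have c6 := hC.c6
  have Qa := hQ.a
  have Qb := hQ.b
  have Qb' : -gX ≤ (W - 1) * (gX + dX) := by linarith
  rcases hp.lt_or_gt with hq1 | hq1
  · have hVe := hV.lt hq1
    have cA := hC.cA1 hq1
    have e1 : (1 - q) * (V - 1) = t * (1 - y) := by
      have : (1 - q) * (V - 1) = (1 - q) * V - (1 - q) := by ring
      rw [this, hVe, hq]; ring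
    constructor
    · intro h0
      have e2 : (1 - q) * gX * (V - 1) = gX * (t * (1 - y)) := by rw [← e1]; ring
      rw [e2]
      have k1 : gX * (t * (1 - y)) ≤ W * (gX + q * dX) * (t * (1 - y)) :=
        mul_le_mul_of_nonneg_right Qa (mul_nonneg ht (by linarith))
      have k2 : (t * (1 - y) * W) * (gX + q * dX) ≤ (F - 1) * (gX + q * dX) :=
        mul_le_mul_of_nonneg_right cA pA.le
      nlinarith
    · intro h0
      have e2 : -((1 - q) * gX) * (V - 1) = (-gX) * (t * (1 - y)) := by rw [← e1]; ring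
      rw [e2]
      have k1 : (-gX) * (t * (1 - y)) ≤ (W - 1) * (gX + dX) * (t * (1 - y)) :=
        mul_le_mul_of_nonneg_right Qb' (mul_nonneg ht (by linarith))
      have k2 : (t * (W - 1)) * ((1 - y) * (gX + dX)) ≤ ((1 + t) * (F - 1)) * ((1 - y) * (gX + dX)) :=
        mul_le_mul_of_nonneg_right c6 (mul_nonneg (by linarith) pB.le)
      have e3 : (F - 1) * (q * (gX + dX)) = ((1 + t) * (F - 1)) * ((1 - y) * (gX + dX)) := by
        rw [hq]; ring
      rw [e3]; linarith
  · have hVe := hV.gt hq1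
    have cA := hC.cA2 hq1
    have cB := hC.cB hq1
    have e1 : (q - 1) * (V - 1) = (1 + t) * y := by
      have : (q - 1) * (V - 1) = (q - 1) * V - (q - 1) := by ring
      rw [this, hVe, hq]; ring
    constructor
    · intro h0
      have e2 : (1 - q) * gX * (V - 1) = (-gX) * ((1 + t) * y) := by rw [← e1]; ring
      rw [e2]
      have k1 : (-gX) * ((1 + t) * y) ≤ (W - 1) * (gX + dX) * ((1 + t) * y) :=
        mul_le_mul_of_nonneg_right Qb' (by positivity)
      have k2 : (y * (W - 1)) * ((1 + t) * (gX + dX)) ≤ ((1 - y) * (F - 1)) * ((1 + t) * (gX + dX)) :=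
        mul_le_mul_of_nonneg_right cB (by positivity)
      have k3 : ((1 - y) * (F - 1)) * ((1 + t) * (gX + dX)) = (F - 1) * (q * (gX + dX)) := by
        rw [hq]; ring
      have k4 : (F - 1) * (q * (gX + dX)) ≤ (F - 1) * (gX + q * dX) := by
        apply mul_le_mul_of_nonneg_left _ (by linarith)
        rw [hPe]; linarith
      linarith
    · intro h0
      rw [hPe]
      have hu : -((1 - q) * gX) = (q - 1) * gX := by ring
      have hgX : 0 ≤ gX := by
        by_contra hneg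
        push Not at hneg
        have : 0 < (1 - q) * gX := mul_pos_of_neg_of_neg (by linarith) hneg
        linarith
      rw [hu]
      have e3 : (F - 1) * (gX + q * dX - (1 - q) * gX) - (q - 1) * gX * (V - 1) =
          (F - 1) * (gX + q * dX) - gX * (t - (q - 1) * F) := by
        have : (q - 1) * gX * (V - 1) = gX * ((q - 1) * V - (q - 1)) := by ring
        rw [this, hVe]; ring
      rcases le_total (t - (q - 1) * F) 0 with h1 | h1
      · have k1 : gX * (t - (q - 1) * F) ≤ 0 := mul_nonpos_of_nonneg_of_nonpos hgX h1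
        have k2 : 0 ≤ (F - 1) * (gX + q * dX) := mul_nonneg (by linarith) pA.le
        linarith
      · have k1 : gX * (t - (q - 1) * F) ≤ W * (gX + q * dX) * (t - (q - 1) * F) :=
          mul_le_mul_of_nonneg_right Qa h1
        have k2 : (W * (t - (q - 1) * F)) * (gX + q * dX) ≤ (F - 1) * (gX + q * dX) :=
          mul_le_mul_of_nonneg_right (by nlinarith) pA.le
        nlinarith

/-- One half of the mixed step. -/
theorem mix_step_a {t y q W F V gX dX g1 d1 g2 d2 g d : ℝ} (hp : Par t y q)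
    (hC : Cond t y q W F) (hV : Crude t y q V) (hX : T1P t y q gX dX)
    (h1 : T1P t y q g1 d1) (h2 : T1P t y q g2 d2) (kd : 0 < d2 + q * d1)
    (hg : g = (gX + q * dX) * g1 + (gX + dX) * g2)
    (hd : d = (gX + q * dX) * d1 + (gX + dX) * d2)
    (hL : QP W q gX dX ∨ (QP W q g1 d1 ∧ QP W q g2 d2)) : g ≤ F * (g + q * d) := by
  have e : g + q * d = (gX + q * dX) * (g1 + q * d1) + (gX + dX) * (g2 + q * d2) := by
    rw [hg, hd]; ring
  rw [e, hg]
  rcases hL with hL | ⟨hL1, hL2⟩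
  · obtain ⟨cP, cN⟩ := cond_large hp hC hV hX hL
    exact mix_up hp.q0 hX.pos (hX.posB hp.t0) h1.pos h2.pos kd (hV.a hp h1) (hV.a hp h2)
      hC.one cP cN
  · obtain ⟨cP, cN⟩ := cond_small hp hC hX
    exact mix_up hp.q0 hX.pos (hX.posB hp.t0) h1.pos h2.pos kd hL1.a hL2.a hC.one cP cN

theorem QP.mix_step {t y q W F V gX dX g1 d1 g2 d2 g d : ℝ} (hp : Par t y q)
    (hC : Cond t y q W F) (hV : Crude t y q V) (hX : T1P t y q gX dX)
    (h1 : T1P t y q g1 d1) (h2 : T1P t y q g2 d2) (h3 : T1P t y q d2 d1)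
    (h4 : T1P t y q g2 g1)
    (hg : g = (gX + q * dX) * g1 + (gX + dX) * g2)
    (hd : d = (gX + q * dX) * d1 + (gX + dX) * d2)
    (hL : QP W q gX dX ∨ (QP W q g1 d1 ∧ QP W q g2 d2)) : QP F q g d := by
  have hq0 := hp.q0
  refine ⟨mix_step_a hp hC hV hX h1 h2 h3.pos hg hd hL, ?_⟩
  have k := mix_step_a (g := q ^ 2 * d) (d := q * g) hp hC hV (hX.dual hp) (h2.dual hp)
    ((h1.dual hp).scale hq0) ?_ ?_ ?_ ?_
  · have e : q ^ 2 * d + q * (q * g) = q ^ 2 * (g + d) := by ring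
    rw [e] at k
    have k2 : q ^ 2 * d ≤ q ^ 2 * (F * (g + d)) := by linarith
    exact le_of_mul_le_mul_left k2 (by positivity)
  · have := h4.posB hp.t0
    have e : q * g1 + q * g2 = q * (g2 + g1) := by ring
    rw [e]; positivity
  · rw [hd]; ring
  · rw [hg]; ring
  · rcases hL with hL | ⟨hL1, hL2⟩
    · exact Or.inl (hL.dual hq0)
    · exact Or.inr ⟨hL2.dual hq0, (hL1.dual hq0).scale hq0⟩

/-- The improvement step. -/
theorem improve {t y q W F V : ℝ} (hp : Par t y q) (hC : Cond t y q W F)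
    (hV : Crude t y q V) {k : ℕ} (hk : 1 ≤ k)
    (hQ : ∀ n g d, k ≤ n → NetVal t y n g d → QP W q g d) :
    ∀ n g d, 2 * k ≤ n → NetVal t y n g d → QP F q g d := by
  have hq := hp.hq
  intro n g d hn h
  cases h with
  | edge v h1 h2 => omega
  | par n m g1 d1 g2 d2 _ _ h1 h2 hg hA =>
    rw [← hq] at hg hA
    rcases le_or_gt k m with hm | hm
    · exact QP.par_step hp hC (h1.t1 hp) (h2.t1 hp) (hQ m g2 d2 hm h2) hg hA
    · have hn' : k ≤ n := by omega
      apply QP.par_step hp hC (h2.t1 hp) (h1.t1 hp) (hQ n g1 d1 hn' h1)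
      · rw [hg]; ring
      · rw [hA]; ring
  | ser n m g1 d1 g2 d2 _ _ h1 h2 hd hB =>
    rw [← hq] at hd
    rcases le_or_gt k m with hm | hm
    · exact QP.ser_step hp hC (h1.t1 hp) (h2.t1 hp) (hQ m g2 d2 hm h2) hd hB
    · have hn' : k ≤ n := by omega
      apply QP.ser_step hp hC (h2.t1 hp) (h1.t1 hp) (hQ n g1 d1 hn' h1)
      · rw [hd]; ring
      · rw [hB]; ring
  | mix n m gX dX g1 d1 g2 d2 _ _ hX h1 h2 h3 h4 hg hd =>
    rw [← hq] at hg hd
    apply QP.mix_step hp hC hV (hX.t1 hp) (h1.t1 hp) (h2.t1 hp) (h3.t1 hp) (h4.t1 hp) hg hd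
    rcases le_or_gt k m with hm | hm
    · exact Or.inr ⟨hQ m g1 d1 hm h1, hQ m g2 d2 hm h2⟩
    · have hn' : k ≤ n := by omega
      exact Or.inl (hQ n gX dX hn' hX)

end Pool.Agent.MP_58ca84_co
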